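import Mathlib
import Pool.Agent.Helper562.STLCConn

open Set Filter Topology
open Pool.Agent.Helper562.STLC (E Conn)

namespace Pool.Agent.Y860.FJ

noncomputable section

/-- The three values of the control `(x', p')`. -/
def ctl : Fin 3 → ℝ × ℝ :=
  ![(1, 1), (1, -1), (-2, 0)]

/-- The index of the fields in dimension `m + 4`. -/
abbrev Idx (m : ℕ) := Fin 3 ⊕ Fin m

/-- The control vectors. -/
def cv (m : ℕ) : Idx m → Fin (m + 4) → ℝ
  | .inl i, l => if l.val = 0 then (ctl i).1 else if l.val = 1 then (ctl i).2 else -1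
  | .inr j, l => if l.val = j.val + 4 then 1 else 0

/-- the running cost. -/
def K (x p y : ℝ) : ℝ := (x * p + y / 2) ^ 2 - x * y ^ 2

/-- The four distinguished coordinates. -/
def c0 (m : ℕ) : Fin (m + 4) := ⟨0, by omega⟩
def c1 (m : ℕ) : Fin (m + 4) := ⟨1, by omega⟩
def c2 (m : ℕ) : Fin (m + 4) := ⟨2, by omega⟩
def c3 (m : ℕ) : Fin (m + 4) := ⟨3, by omega⟩

/-- The vector fields; the first coordinates are `x, p, y, z`. -/
def fld (m : ℕ) (e : ℝ) (N : ℕ) (c : Idx m) (q : E (m + 4)) : E (m + 4) :=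
  WithLp.toLp 2 (fun l : Fin (m + 4) =>
    if l.val = 2 then q (c1 m)
    else if l.val = 3 then K (q (c0 m)) (q (c1 m)) (q (c2 m)) + e * q (c0 m) ^ (2 * N)
    else cv m c l)

/-- a state. -/
def st {m : ℕ} (x p y z : ℝ) (r : Fin (m + 4) → ℝ) : E (m + 4) :=
  WithLp.toLp 2 (fun l : Fin (m + 4) =>
    if l.val = 0 then x else if l.val = 1 then p else if l.val = 2 then y
    else if l.val = 3 then z else r l)

@[simp] lemma st_c0 {m : ℕ} (x p y z : ℝ) (r : Fin (m + 4) → ℝ) : st x p y z r (c0 m) = x := by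
  simp [st, c0]
@[simp] lemma st_c1 {m : ℕ} (x p y z : ℝ) (r : Fin (m + 4) → ℝ) : st x p y z r (c1 m) = p := by
  simp [st, c1]
@[simp] lemma st_c2 {m : ℕ} (x p y z : ℝ) (r : Fin (m + 4) → ℝ) : st x p y z r (c2 m) = y := by
  simp [st, c2]
@[simp] lemma st_c3 {m : ℕ} (x p y z : ℝ) (r : Fin (m + 4) → ℝ) : st x p y z r (c3 m) = z := by
  simp [st, c3]

/-- the family on `k` indices. -/
def fam (m : ℕ) (e : ℝ) (N : ℕ) {k : ℕ} (φ : Fin k → Idx m) : Fin k → E (m + 4) → E (m + 4) :=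
  fun i => fld m e N (φ i)

/-- cost of a single control. -/
def fc (A B x p y θ : ℝ) : ℝ :=
  ∫ s in (0 : ℝ)..θ, K (x + A * s) (p + B * s) (y + p * s + B * s ^ 2 / 2)

lemma continuous_K_flow (A B x p y : ℝ) : Continuous (fun s : ℝ =>
    K (x + A * s) (p + B * s) (y + p * s + B * s ^ 2 / 2)) := by
  unfold K; fun_prop

lemma flow_deriv {m : ℕ} (i : Fin 3) (x p y z s : ℝ) (r : Fin (m + 4) → ℝ) {S : Set ℝ} :
    HasDerivWithinAt (fun s => st (x + (ctl i).1 * s) (p + (ctl i).2 * s)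
      (y + p * s + (ctl i).2 * s ^ 2 / 2)
      (z + fc (ctl i).1 (ctl i).2 x p y s) (fun l => r l - s))
    (fld m 0 0 (.inl i) (st (x + (ctl i).1 * s) (p + (ctl i).2 * s)
      (y + p * s + (ctl i).2 * s ^ 2 / 2)
      (z + fc (ctl i).1 (ctl i).2 x p y s) (fun l => r l - s))) S s := by
  rw [hasDerivWithinAt_iff_hasFDerivWithinAt, hasFDerivWithinAt_euclidean]
  intro j
  have hlin : ∀ (a b : ℝ), HasDerivAt (fun s : ℝ => a + b * s) b s := by
    intro a b
    have := ((hasDerivAt_id s).const_mul b).const_add a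
    simpa using this
  by_cases h0 : j.val = 0
  · simp only [st, h0, if_true]
    refine ((hlin x (ctl i).1).hasDerivWithinAt.hasFDerivWithinAt).congr_fderiv ?_
    ext; simp [fld, h0, cv, -Fin.val_eq_zero_iff]
  by_cases h1 : j.val = 1
  · simp only [st, h1, if_true, one_ne_zero, if_false]
    refine ((hlin p (ctl i).2).hasDerivWithinAt.hasFDerivWithinAt).congr_fderiv ?_
    ext; simp [fld, h1, cv, -Fin.val_eq_zero_iff]
  by_cases h2 : j.val = 2
  · have hy : HasDerivAt (fun s : ℝ => y + p * s + (ctl i).2 * s ^ 2 / 2)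
        (p + (ctl i).2 * s) s := by
      have h2 := ((hlin y p).add ((((hasDerivAt_pow 2 s).const_mul (ctl i).2)).div_const 2))
      refine h2.congr_deriv ?_
      push_cast; ring
    simp only [st, h2, if_true, OfNat.ofNat_ne_zero, OfNat.ofNat_ne_one, if_false]
    refine (hy.hasDerivWithinAt.hasFDerivWithinAt).congr_fderiv ?_
    ext; simp [fld, h2, c1]
  by_cases h3 : j.val = 3
  · have hz : HasDerivAt (fun s => fc (ctl i).1 (ctl i).2 x p y s)
        (K (x + (ctl i).1 * s) (p + (ctl i).2 * s) (y + p * s + (ctl i).2 * s ^ 2 / 2)) s :=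
      (continuous_K_flow _ _ x p y).integral_hasStrictDerivAt 0 s |>.hasDerivAt
    simp only [st, h3, if_true, OfNat.ofNat_ne_zero, OfNat.ofNat_ne_one, if_false,
      Nat.reduceEqDiff]
    refine ((hz.const_add z).hasDerivWithinAt.hasFDerivWithinAt).congr_fderiv ?_
    ext; simp [fld, h3, c0, c1, c2]
  · simp only [st, h0, h1, h2, h3, if_false]
    refine (((hasDerivAt_id s).const_sub (r j)).hasDerivWithinAt.hasFDerivWithinAt).congr_fderiv ?_
    ext; simp [fld, h0, h1, h2, h3, cv, -Fin.val_eq_zero_iff]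

/-- Applying one control during time `θ ≥ 0`. -/
lemma conn_ctl {m k : ℕ} {φ : Fin k → Idx m} (hφ : Function.Surjective φ) {a : E (m + 4)}
    {T x p y z : ℝ} {r : Fin (m + 4) → ℝ}
    (h : Conn (fam m 0 0 φ) a T (st x p y z r)) (i : Fin 3) {θ : ℝ}
    (hθ : 0 ≤ θ) : Conn (fam m 0 0 φ) a (T + θ) (st (x + (ctl i).1 * θ) (p + (ctl i).2 * θ)
      (y + p * θ + (ctl i).2 * θ ^ 2 / 2)
      (z + fc (ctl i).1 (ctl i).2 x p y θ) (fun l => r l - θ)) := by
  obtain ⟨i', hi'⟩ := hφ (.inl i)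
  rcases hθ.eq_or_lt with h0 | h0
  · subst h0
    simpa [fc] using h
  · refine h.step h0 i' (fun s => st (x + (ctl i).1 * s) (p + (ctl i).2 * s)
      (y + p * s + (ctl i).2 * s ^ 2 / 2)
      (z + fc (ctl i).1 (ctl i).2 x p y s) (fun l => r l - s)) (by simp [fc])
      (fun s _ => ?_)
    simp only [fam, hi']
    exact flow_deriv i x p y z s r

/-- A motion of duration `T` from the state `(x, p, y)` to the state `(x', p', y')` which
changes the coordinate `z` by `c`. -/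
def Mv {m k : ℕ} (φ : Fin k → Idx m) (T x p y x' p' y' c : ℝ) : Prop :=
  ∀ (a : E (m + 4)) (S z : ℝ) (r : Fin (m + 4) → ℝ), Conn (fam m 0 0 φ) a S (st x p y z r) →
    Conn (fam m 0 0 φ) a (S + T) (st x' p' y' (z + c) (fun l => r l - T))

lemma Mv.trans {m k : ℕ} {φ : Fin k → Idx m} {T₁ T₂ x p y x' p' y' x'' p'' y'' c₁ c₂ : ℝ}
    (h₁ : Mv φ T₁ x p y x' p' y' c₁) (h₂ : Mv φ T₂ x' p' y' x'' p'' y'' c₂) :
    Mv φ (T₁ + T₂) x p y x'' p'' y'' (c₁ + c₂) := by
  intro a S z r h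
  have := h₂ a _ _ _ (h₁ a S z r h)
  rw [add_assoc, add_assoc] at this
  simpa only [sub_sub] using this

lemma Mv.congr {m k : ℕ} {φ : Fin k → Idx m} {T x p y x' p' y' c T₂ x₂ p₂ y₂ c₂ : ℝ}
    (h : Mv φ T x p y x' p' y' c) (hT : T = T₂) (hx : x' = x₂) (hp : p' = p₂)
    (hy : y' = y₂) (hc : c = c₂) : Mv φ T₂ x p y x₂ p₂ y₂ c₂ := by
  subst hT hx hp hy hc
  exact h

lemma Mv.refl {m k : ℕ} (φ : Fin k → Idx m) (x p y : ℝ) : Mv φ 0 x p y x p y 0 := by
  intro a S z r h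
  simpa using h

lemma Mv.single {m k : ℕ} {φ : Fin k → Idx m} (hφ : Function.Surjective φ) (i : Fin 3)
    (x p y : ℝ) {θ : ℝ} (hθ : 0 ≤ θ) :
    Mv φ θ x p y (x + (ctl i).1 * θ) (p + (ctl i).2 * θ)
      (y + p * θ + (ctl i).2 * θ ^ 2 / 2)
      (fc (ctl i).1 (ctl i).2 x p y θ) :=
  fun _ _ _ _ h => conn_ctl hφ h i hθ

lemma abs_K_le {x p y : ℝ} (hx : |x| ≤ 1) (hp : |p| ≤ 1) (hy : |y| ≤ 1) :
    |K x p y| ≤ 4 := by
  unfold K
  have h1 : |x * p| ≤ 1 := by
    rw [abs_mul]; exact mul_le_one₀ hx (abs_nonneg _) hp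
  obtain ⟨h1a, h1b⟩ := abs_le.1 h1
  obtain ⟨h2a, h2b⟩ := abs_le.1 hy
  obtain ⟨h3a, h3b⟩ := abs_le.1 hx
  have hy2 : y ^ 2 ≤ 1 := by nlinarith
  have hy0 : 0 ≤ y ^ 2 := sq_nonneg y
  have h4 : |x * y ^ 2| ≤ 1 := by
    rw [abs_mul, abs_of_nonneg hy0]
    exact mul_le_one₀ hx hy0 hy2
  obtain ⟨h4a, h4b⟩ := abs_le.1 h4
  have h5 : (x * p + y / 2) ^ 2 ≤ 3 := by nlinarith
  have h6 : 0 ≤ (x * p + y / 2) ^ 2 := sq_nonneg _
  rw [abs_le]
  constructor <;> linarith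

lemma abs_fc_le {A B x p y θ C : ℝ} (hθ : 0 ≤ θ)
    (h : ∀ s ∈ Icc 0 θ, |K (x + A * s) (p + B * s) (y + p * s + B * s ^ 2 / 2)| ≤ C) :
    |fc A B x p y θ| ≤ C * θ := by
  have := intervalIntegral.norm_integral_le_of_norm_le_const (a := 0) (b := θ) (C := C)
    (f := fun s => K (x + A * s) (p + B * s) (y + p * s + B * s ^ 2 / 2)) (by
      intro s hs
      rw [uIoc_of_le hθ] at hs
      exact h s (Ioc_subset_Icc_self hs))
  rw [sub_zero, abs_of_nonneg hθ] at this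
  exact this

lemma fc_zero_of_K {A B x p y θ : ℝ}
    (h : ∀ s, K (x + A * s) (p + B * s) (y + p * s + B * s ^ 2 / 2) = 0) :
    fc A B x p y θ = 0 := by
  unfold fc
  simp [h]

end

end Pool.Agent.Y860.FJ
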