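import Mathlib
import Pool.Agent.Y860.FJ.Base

open Set Filter Topology
open Pool.Agent.Helper562.STLC (E Conn)

namespace Pool.Agent.Y860.FJ

noncomputable section

variable {m k : ℕ} {φ : Fin k → Idx m}

lemma exists_ctl' {s : ℝ} (hs : s = 1 ∨ s = -1) : ∃ i₁ : Fin 3, ctl i₁ = (1, s) := by
  rcases hs with rfl | rfl
  · exact ⟨0, by simp [ctl]⟩
  · exact ⟨1, by simp [ctl]⟩

/-- changing `p` linearly, `x` making a small excursion. -/
lemma pseg (hφ : Function.Surjective φ) {s : ℝ} (hs : s = 1 ∨ s = -1) {x p y τ : ℝ}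
    (hτ : 0 ≤ τ) (hτ1 : τ ≤ 1 / 2) (hx : |x| ≤ 1 / 2)
    (hpb : ∀ r ∈ Icc 0 τ, |p + s * r| ≤ 1)
    (hyb : ∀ r ∈ Icc 0 τ, |y + p * r + s * r ^ 2 / 2| ≤ 1)
    (hyc : ∀ r ∈ Icc 0 (τ / 2), |y + p * τ + s * τ ^ 2 / 2 + (p + s * τ) * r| ≤ 1) :
    ∃ c, |c| ≤ 6 * τ ∧
      Mv φ (3 / 2 * τ) x p y x (p + s * τ) (y + 3 / 2 * p * τ + s * τ ^ 2) c := by
  obtain ⟨i₁, hi₁⟩ := exists_ctl' hs
  have hi₂ : ctl 2 = (-2, 0) := by simp [ctl]
  obtain ⟨hx1, hx2⟩ := abs_le.1 hx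
  have h1 := Mv.single hφ i₁ x p y (θ := τ) hτ
  have h2 := Mv.single hφ 2 (x + τ) (p + s * τ)
    (y + p * τ + s * τ ^ 2 / 2) (θ := τ / 2) (by positivity)
  have h1' := h1.congr (T₂ := τ) (x₂ := x + τ) (p₂ := p + s * τ)
    (y₂ := y + p * τ + s * τ ^ 2 / 2) (c₂ := fc 1 s x p y τ) rfl
    (by simp [hi₁]) (by simp [hi₁]) (by simp [hi₁]) (by simp [hi₁])
  have h2' := h2.congr (T₂ := τ / 2) (x₂ := x) (p₂ := p + s * τ)
    (y₂ := y + 3 / 2 * p * τ + s * τ ^ 2)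
    (c₂ := fc (-2) 0 (x + τ) (p + s * τ)
      (y + p * τ + s * τ ^ 2 / 2) (τ / 2)) rfl
    (by simp only [hi₂]; ring) (by simp only [hi₂]; ring) (by simp only [hi₂]; ring)
    (by simp [hi₂])
  refine ⟨_, ?_, (h1'.trans h2').congr (by ring) rfl rfl rfl rfl⟩
  have b1 : |fc 1 s x p y τ| ≤ 4 * τ := by
    apply abs_fc_le hτ
    intro r hr
    apply abs_K_le
    · rw [abs_le]; constructor <;> linarith [hr.1, hr.2]
    · exact hpb r hr
    · exact hyb r hr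
  have b2 : |fc (-2) 0 (x + τ) (p + s * τ)
      (y + p * τ + s * τ ^ 2 / 2) (τ / 2)| ≤ 4 * (τ / 2) := by
    apply abs_fc_le (by positivity)
    intro r hr
    apply abs_K_le
    · rw [abs_le]; constructor <;> linarith [hr.1, hr.2]
    · have := hpb τ ⟨hτ, le_rfl⟩
      simpa using this
    · have := hyc r hr
      simpa using this
  refine (abs_add_le _ _).trans ?_
  linarith

lemma pmove (hφ : Function.Surjective φ) {x y p₁ : ℝ} (hx : |x| ≤ 1 / 2) (hy : |y| ≤ 1 / 4)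
    (hp : |p₁| ≤ 1 / 2) :
    ∃ c, |c| ≤ 6 * |p₁| ∧ Mv φ (3 / 2 * |p₁|) x 0 y x p₁ (y + p₁ * |p₁|) c := by
  obtain ⟨hy1, hy2⟩ := abs_le.1 hy
  rcases le_total 0 p₁ with h | h
  · rw [abs_of_nonneg h] at hp ⊢
    obtain ⟨c, hc, hM⟩ := pseg hφ (s := 1) (Or.inl rfl) (x := x) (p := 0) (y := y) h
      hp hx
      (by intro r hr; rw [abs_le]; constructor <;> linarith [hr.1, hr.2])
      (by intro r hr; rw [abs_le]; constructor <;> nlinarith [hr.1, hr.2])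
      (by
        intro r hr
        have h1 : 0 ≤ p₁ * r := mul_nonneg h hr.1
        have h2 : p₁ * r ≤ p₁ * (1 / 4) := mul_le_mul_of_nonneg_left (by linarith [hr.2]) h
        have h3 : p₁ ^ 2 ≤ 1 / 4 := by nlinarith
        rw [abs_le]; constructor <;> nlinarith [sq_nonneg p₁])
    exact ⟨c, hc, hM.congr rfl rfl (by ring) (by ring) rfl⟩
  · rw [abs_of_nonpos h] at hp ⊢
    obtain ⟨c, hc, hM⟩ := pseg hφ (s := -1) (Or.inr rfl) (x := x) (p := 0) (y := y)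
      (τ := -p₁) (by linarith) (by linarith) hx
      (by intro r hr; rw [abs_le]; constructor <;> linarith [hr.1, hr.2])
      (by intro r hr; rw [abs_le]; constructor <;> nlinarith [hr.1, hr.2])
      (by
        intro r hr
        have h0 : 0 ≤ -p₁ := by linarith
        have h1 : 0 ≤ -p₁ * r := mul_nonneg h0 hr.1
        have h2 : -p₁ * r ≤ -p₁ * (1 / 4) := mul_le_mul_of_nonneg_left (by linarith [hr.2]) h0
        have h3 : p₁ ^ 2 ≤ 1 / 4 := by nlinarith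
        rw [abs_le]; constructor <;> nlinarith [sq_nonneg p₁])
    exact ⟨c, hc, hM.congr rfl rfl (by ring) (by ring) rfl⟩

/-- back to `p = 0` from `p = a`. -/
lemma pback (hφ : Function.Surjective φ) {x y a : ℝ} (hx : |x| ≤ 1 / 2) (hy : |y| ≤ 1 / 2)
    (ha : |a| ≤ 1 / 2) :
    ∃ c, |c| ≤ 6 * |a| ∧ Mv φ (3 / 2 * |a|) x a y x 0 (y + a * |a| / 2) c := by
  obtain ⟨hy1, hy2⟩ := abs_le.1 hy
  rcases le_total 0 a with h | h
  · rw [abs_of_nonneg h] at ha ⊢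
    obtain ⟨c, hc, hM⟩ := pseg hφ (s := -1) (Or.inr rfl) (x := x) (p := a) (y := y) h
      ha hx
      (by intro r hr; rw [abs_le]; constructor <;> linarith [hr.1, hr.2])
      (by intro r hr; rw [abs_le]; constructor <;> nlinarith [hr.1, hr.2])
      (by intro r hr; rw [abs_le]; constructor <;> nlinarith [hr.1, hr.2])
    exact ⟨c, hc, hM.congr rfl rfl (by ring) (by ring) rfl⟩
  · rw [abs_of_nonpos h] at ha ⊢
    obtain ⟨c, hc, hM⟩ := pseg hφ (s := 1) (Or.inl rfl) (x := x) (p := a) (y := y)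
      (τ := -a) (by linarith) (by linarith) hx
      (by intro r hr; rw [abs_le]; constructor <;> linarith [hr.1, hr.2])
      (by intro r hr; rw [abs_le]; constructor <;> nlinarith [hr.1, hr.2])
      (by intro r hr; rw [abs_le]; constructor <;> nlinarith [hr.1, hr.2])
    exact ⟨c, hc, hM.congr rfl rfl (by ring) (by ring) rfl⟩

/-- changing `y` by `d`. -/
lemma ybump (hφ : Function.Surjective φ) {x y d : ℝ} (hx : |x| ≤ 1 / 2) (hy : |y| ≤ 1 / 4)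
    (hd : |d| ≤ 1 / 4) :
    ∃ T c, 0 ≤ T ∧ T ≤ 3 * √|d| ∧ |c| ≤ 12 * √|d| ∧ Mv φ T x 0 y x 0 (y + d) c := by
  have hr : √|d| ≤ 1 / 2 := by
    apply Real.sqrt_le_iff.2
    exact ⟨by norm_num, by norm_num; linarith⟩
  set ρ := √(2 / 3 * |d|) with hρ
  have hρ0 : 0 ≤ ρ := Real.sqrt_nonneg _
  have hρr : ρ ≤ √|d| := Real.sqrt_le_sqrt (by
    have := abs_nonneg d
    linarith)
  have hr2 : ρ * ρ = 2 / 3 * |d| := Real.mul_self_sqrt (by positivity)
  -- the amplitude with sign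
  obtain ⟨a, ha, had⟩ : ∃ a : ℝ, |a| = ρ ∧ a * |a| = 2 / 3 * d := by
    rcases le_total 0 d with h | h
    · exact ⟨ρ, abs_of_nonneg hρ0, by rw [abs_of_nonneg hρ0, hr2, abs_of_nonneg h]⟩
    · exact ⟨-ρ, by rw [abs_neg, abs_of_nonneg hρ0],
        by rw [abs_neg, abs_of_nonneg hρ0, neg_mul, hr2, abs_of_nonpos h]; ring⟩
  obtain ⟨c₁, hc₁, h₁⟩ := pmove hφ hx hy (p₁ := a) (by rw [ha]; linarith)
  obtain ⟨c₂, hc₂, h₂⟩ := pback hφ (x := x) (y := y + a * |a|) (a := a) hx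
    (by
      rw [had]
      obtain ⟨hy1, hy2⟩ := abs_le.1 hy
      obtain ⟨hd1, hd2⟩ := abs_le.1 hd
      rw [abs_le]; constructor <;> linarith) (by rw [ha]; linarith)
  refine ⟨3 / 2 * |a| + 3 / 2 * |a|, c₁ + c₂, by positivity, ?_, ?_,
    (h₁.trans h₂).congr rfl rfl rfl ?_ rfl⟩
  · rw [ha]; linarith
  · calc |c₁ + c₂| ≤ |c₁| + |c₂| := abs_add_le _ _
      _ ≤ 6 * |a| + 6 * |a| := by gcongr
      _ = 12 * ρ := by rw [ha]; ring
      _ ≤ 12 * √|d| := by linarith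
  · linarith [had]

/-- closed form of the cost of one control. -/
lemma fc_eq (A B x p y θ : ℝ) : fc A B x p y θ =
    ((x * p + y / 2) ^ 2 - x * y ^ 2) * θ +
    (2 * (x * p + y / 2) * (x * B + A * p + p / 2) - (2 * x * y * p + A * y ^ 2)) * θ ^ 2 / 2 +
    ((x * B + A * p + p / 2) ^ 2 + 2 * (x * p + y / 2) * (A * B + B / 4) -
      (x * (p ^ 2 + y * B) + 2 * A * y * p)) * θ ^ 3 / 3 +
    (2 * (x * B + A * p + p / 2) * (A * B + B / 4) -
      (x * p * B + A * (p ^ 2 + y * B))) * θ ^ 4 / 4 +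
    ((A * B + B / 4) ^ 2 - (x * B ^ 2 / 4 + A * p * B)) * θ ^ 5 / 5 -
    A * B ^ 2 / 4 * θ ^ 6 / 6 := by
  have hp : ∀ n : ℕ, ∀ a s : ℝ, HasDerivAt (fun s : ℝ => a * s ^ (n + 1))
      (a * ((n + 1) * s ^ n)) s := by
    intro n a s
    have := (hasDerivAt_pow (n + 1) s).const_mul a
    refine this.congr_deriv ?_
    push_cast; simp
  have hd : ∀ s ∈ uIcc 0 θ, HasDerivAt (fun s : ℝ =>
      ((x * p + y / 2) ^ 2 - x * y ^ 2) * s ^ (0 + 1) +
      ((2 * (x * p + y / 2) * (x * B + A * p + p / 2) - (2 * x * y * p + A * y ^ 2)) / 2) *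
        s ^ (1 + 1) +
      (((x * B + A * p + p / 2) ^ 2 + 2 * (x * p + y / 2) * (A * B + B / 4) -
        (x * (p ^ 2 + y * B) + 2 * A * y * p)) / 3) * s ^ (2 + 1) +
      ((2 * (x * B + A * p + p / 2) * (A * B + B / 4) -
        (x * p * B + A * (p ^ 2 + y * B))) / 4) * s ^ (3 + 1) +
      (((A * B + B / 4) ^ 2 - (x * B ^ 2 / 4 + A * p * B)) / 5) * s ^ (4 + 1) -
      (A * B ^ 2 / 4 / 6) * s ^ (5 + 1))
      (K (x + A * s) (p + B * s) (y + p * s + B * s ^ 2 / 2)) s := by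
    intro s _
    refine ((((((hp 0 _ s).add (hp 1 _ s)).add (hp 2 _ s)).add (hp 3 _ s)).add
      (hp 4 _ s)).sub (hp 5 _ s)).congr_deriv ?_
    unfold K
    push_cast
    ring
  rw [fc, intervalIntegral.integral_eq_sub_of_hasDerivAt hd
    ((continuous_K_flow A B x p y).intervalIntegrable _ _)]
  ring

/-- the loop at the origin with positive cost. -/
lemma ploop (hφ : Function.Surjective φ) {a : ℝ} (ha : 0 ≤ a) :
    Mv φ (6 * a) 0 0 0 0 0 0 (59 / 24 * a ^ 5) := by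
  have h1 := Mv.single hφ 0 0 0 0 ha
  have h2 := Mv.single hφ 2 a a (a ^ 2 / 2) ha
  have h3 := Mv.single hφ 1 (-a) a (3 / 2 * a ^ 2) (θ := 2 * a) (by positivity)
  have h4 := Mv.single hφ 2 a (-a) (3 / 2 * a ^ 2) ha
  have h5 := Mv.single hφ 0 (-a) (-a) (a ^ 2 / 2) ha
  have h1' := h1.congr (T₂ := a) (x₂ := a) (p₂ := a) (y₂ := a ^ 2 / 2)
    (c₂ := 5 / 16 * a ^ 5 - 1 / 24 * a ^ 6) rfl (by simp [ctl]) (by simp [ctl])
    (by simp only [ctl]; simp) (by rw [fc_eq]; simp only [ctl]; simp; ring)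
  have h2' := h2.congr (T₂ := a) (x₂ := -a) (p₂ := a) (y₂ := 3 / 2 * a ^ 2)
    (c₂ := 7 / 16 * a ^ 5 + 1 / 3 * a ^ 6) rfl (by simp only [ctl]; simp; ring)
    (by simp [ctl])
    (by simp only [ctl]; simp; ring) (by rw [fc_eq]; simp only [ctl]; simp; ring)
  have h3' := h3.congr (T₂ := 2 * a) (x₂ := a) (p₂ := -a) (y₂ := 3 / 2 * a ^ 2)
    (c₂ := 23 / 24 * a ^ 5) rfl (by simp only [ctl]; simp; ring)
    (by simp only [ctl]; simp; ring)
    (by simp only [ctl]; simp; ring) (by rw [fc_eq]; simp only [ctl]; simp; ring)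
  have h4' := h4.congr (T₂ := a) (x₂ := -a) (p₂ := -a) (y₂ := a ^ 2 / 2)
    (c₂ := 7 / 16 * a ^ 5 - 1 / 3 * a ^ 6) rfl (by simp only [ctl]; simp; ring)
    (by simp [ctl])
    (by simp only [ctl]; simp; ring) (by rw [fc_eq]; simp only [ctl]; simp; ring)
  have h5' := h5.congr (T₂ := a) (x₂ := 0) (p₂ := 0) (y₂ := 0)
    (c₂ := 5 / 16 * a ^ 5 + 1 / 24 * a ^ 6) rfl (by simp [ctl]) (by simp [ctl])
    (by simp only [ctl]; simp; ring) (by rw [fc_eq]; simp only [ctl]; simp; ring)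
  refine ((((h1'.trans h2').trans h3').trans h4').trans h5').congr
    ?_ rfl rfl rfl ?_ <;> ring

end

end Pool.Agent.Y860.FJ
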