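import Mathlib
import Pool.Agent.Y860.FJ.Moves

open Set Filter Topology
open Pool.Agent.Helper562.STLC (E Conn)

namespace Pool.Agent.Y860.FJ

noncomputable section

variable {m k : ℕ} {φ : Fin k → Idx m}

lemma K_lip {x p x' p' y y' D : ℝ} (hx' : |x'| ≤ 1) (hp : |p| ≤ 1) (hp' : |p'| ≤ 1)
    (hx : |x| ≤ 1) (hy : |y| ≤ 1) (hy' : |y'| ≤ 1)
    (h1 : |x - x'| ≤ D) (h2 : |p - p'| ≤ D) (h3 : |y - y'| ≤ 3 * D) :
    |K x p y - K x' p' y'| ≤ 20 * D := by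
  have hD : 0 ≤ D := (abs_nonneg _).trans h1
  have e : K x p y - K x' p' y' =
      ((x - x') * p + x' * (p - p') + (y - y') / 2) * (x * p + y / 2 + x' * p' + y' / 2) -
        ((x - x') * y ^ 2 + x' * ((y - y') * (y + y'))) := by
    unfold K; ring
  rw [e]
  have a1 : |(x - x') * p + x' * (p - p') + (y - y') / 2| ≤ 7 / 2 * D := by
    calc _ ≤ |(x - x') * p| + |x' * (p - p')| + |(y - y') / 2| := abs_add_three _ _ _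
      _ = |x - x'| * |p| + |x'| * |p - p'| + |y - y'| / 2 := by
          rw [abs_mul, abs_mul, abs_div, abs_two]
      _ ≤ D * 1 + 1 * D + 3 * D / 2 := by gcongr
      _ = 7 / 2 * D := by ring
  have a2 : |x * p + y / 2 + x' * p' + y' / 2| ≤ 3 := by
    calc _ ≤ |(x * p + y / 2)| + |x' * p'| + |y' / 2| := abs_add_three _ _ _
      _ ≤ |x * p| + |y / 2| + |x' * p'| + |y' / 2| := by
            gcongr
            exact abs_add_le _ _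
      _ = |x| * |p| + |y| / 2 + |x'| * |p'| + |y'| / 2 := by
          rw [abs_mul, abs_mul, abs_div, abs_div, abs_two]
      _ ≤ 1 * 1 + 1 / 2 + 1 * 1 + 1 / 2 := by gcongr
      _ = 3 := by norm_num
  have a3 : |y + y'| ≤ 2 := (abs_add_le _ _).trans (by linarith)
  have a4 : |y| ^ 2 ≤ 1 := pow_le_one₀ (abs_nonneg _) hy
  calc _ ≤ |((x - x') * p + x' * (p - p') + (y - y') / 2) * (x * p + y / 2 + x' * p' + y' / 2)| +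
        |(x - x') * y ^ 2 + x' * ((y - y') * (y + y'))| := abs_sub _ _
    _ ≤ |((x - x') * p + x' * (p - p') + (y - y') / 2) * (x * p + y / 2 + x' * p' + y' / 2)| +
        (|(x - x') * y ^ 2| + |x' * ((y - y') * (y + y'))|) := by
          gcongr
          exact abs_add_le _ _
    _ = |(x - x') * p + x' * (p - p') + (y - y') / 2| * |x * p + y / 2 + x' * p' + y' / 2| +
        (|x - x'| * |y| ^ 2 + |x'| * (|y - y'| * |y + y'|)) := by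
          rw [abs_mul, abs_mul, abs_mul, abs_mul, abs_pow]
    _ ≤ 7 / 2 * D * 3 + (D * 1 + 1 * (3 * D * 2)) := by gcongr
    _ ≤ 20 * D := by linarith

lemma abs_fc_sub_le {A B x p y θ C h₀ : ℝ} (hθ : 0 ≤ θ)
    (h : ∀ s ∈ Icc 0 θ,
      |K (x + A * s) (p + B * s) (y + p * s + B * s ^ 2 / 2) - h₀| ≤ C) :
    |fc A B x p y θ - h₀ * θ| ≤ C * θ := by
  have h1 : fc A B x p y θ - h₀ * θ = ∫ s in (0 : ℝ)..θ,
      (K (x + A * s) (p + B * s) (y + p * s + B * s ^ 2 / 2) - h₀) := by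
    rw [intervalIntegral.integral_sub ((continuous_K_flow A B x p y).intervalIntegrable _ _)
      (by simp)]
    simp [fc, mul_comm]
  rw [h1]
  have := intervalIntegral.norm_integral_le_of_norm_le_const (a := 0) (b := θ) (C := C)
    (f := fun s => K (x + A * s) (p + B * s) (y + p * s + B * s ^ 2 / 2) - h₀) (by
      intro s hs
      rw [uIoc_of_le hθ] at hs
      exact h s (Ioc_subset_Icc_self hs))
  rw [sub_zero, abs_of_nonneg hθ] at this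
  exact this

/-- one step of the chattering control. -/
lemma chatter_step (hφ : Function.Surjective φ) {σ : ℝ} (hσ : σ = 1 ∨ σ = -1)
    {x P y Δ d : ℝ} (hΔ0 : 0 < Δ) (hΔ : Δ ≤ 1 / 16) (hd : |d| ≤ Δ / 4)
    (hx : |x| ≤ 3 / 4) (hP : |P| ≤ 1 / 2) (hy : |y| ≤ 3 / 4) :
    ∃ y' c, |y' - y - P * Δ| ≤ Δ ^ 2 ∧ |c - K x P y * Δ| ≤ 40 * Δ ^ 2 ∧
      Mv φ Δ x P y (x + σ * Δ) (P + d) y' c := by
  obtain ⟨hd1, hd2⟩ := abs_le.1 hd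
  obtain ⟨hP1, hP2⟩ := abs_le.1 hP
  obtain ⟨hy1, hy2⟩ := abs_le.1 hy
  obtain ⟨hx1, hx2⟩ := abs_le.1 hx
  -- the three durations
  obtain ⟨τ₁, τ₂, τ₃, hτ₁, hτ₂, hτ₃, hsum, hdiff, hxs⟩ : ∃ τ₁ τ₂ τ₃ : ℝ, 0 ≤ τ₁ ∧ 0 ≤ τ₂ ∧
      0 ≤ τ₃ ∧ τ₁ + τ₂ + τ₃ = Δ ∧ τ₁ - τ₂ = d ∧ τ₁ + τ₂ - 2 * τ₃ = σ * Δ := by
    rcases hσ with rfl | rfl
    · exact ⟨(Δ + d) / 2, (Δ - d) / 2, 0, by linarith, by linarith, le_rfl, by ring, by ring,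
        by ring⟩
    · exact ⟨(Δ / 3 + d) / 2, (Δ / 3 - d) / 2, 2 / 3 * Δ, by linarith, by linarith,
        by positivity, by ring, by ring, by ring⟩
  have hi0 : ctl 0 = (1, 1) := by simp [ctl]
  have hi1 : ctl 1 = (1, -1) := by simp [ctl]
  have hi2 : ctl 2 = (-2, 0) := by simp [ctl]
  have h1 := Mv.single hφ 0 x P y hτ₁
  have h2 := Mv.single hφ 1 (x + τ₁) (P + τ₁) (y + P * τ₁ + τ₁ ^ 2 / 2) hτ₂
  have h3 := Mv.single hφ 2 (x + τ₁ + τ₂) (P + d)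
    (y + P * τ₁ + τ₁ ^ 2 / 2 + (P + τ₁) * τ₂ - τ₂ ^ 2 / 2) hτ₃
  have h1' := h1.congr (T₂ := τ₁) (x₂ := x + τ₁) (p₂ := P + τ₁)
    (y₂ := y + P * τ₁ + τ₁ ^ 2 / 2) (c₂ := fc 1 1 x P y τ₁) rfl (by simp [hi0])
    (by simp [hi0]) (by simp [hi0]) (by simp [hi0])
  have h2' := h2.congr (T₂ := τ₂) (x₂ := x + τ₁ + τ₂) (p₂ := P + d)
    (y₂ := y + P * τ₁ + τ₁ ^ 2 / 2 + (P + τ₁) * τ₂ - τ₂ ^ 2 / 2)
    (c₂ := fc 1 (-1) (x + τ₁) (P + τ₁) (y + P * τ₁ + τ₁ ^ 2 / 2) τ₂) rfl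
    (by simp [hi1]) (by simp only [hi1]; linarith)
    (by simp only [hi1]; ring) (by simp [hi1])
  have h3' := h3.congr (T₂ := τ₃) (x₂ := x + σ * Δ) (p₂ := P + d)
    (y₂ := y + P * τ₁ + τ₁ ^ 2 / 2 + (P + τ₁) * τ₂ - τ₂ ^ 2 / 2 + (P + d) * τ₃)
    (c₂ := fc (-2) 0 (x + τ₁ + τ₂) (P + d)
      (y + P * τ₁ + τ₁ ^ 2 / 2 + (P + τ₁) * τ₂ - τ₂ ^ 2 / 2) τ₃) rfl
    (by simp only [hi2]; linarith) (by simp only [hi2]; ring)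
    (by simp only [hi2]; ring) (by simp [hi2])
  have hpt : ∀ r, 0 ≤ r → |P * r| ≤ 1 / 2 * r := by
    intro r hr; rw [abs_mul, abs_of_nonneg hr]; gcongr
  have hΔ2 : Δ ^ 2 ≤ Δ / 16 := by nlinarith
  have hτ₁Δ : τ₁ ≤ Δ := by linarith
  have hτ₂Δ : τ₂ ≤ Δ := by linarith
  have hτ₃Δ : τ₃ ≤ Δ := by linarith
  have hτ12 : τ₁ + τ₂ ≤ Δ := by linarith
  have hs1 : τ₁ ^ 2 ≤ Δ ^ 2 := pow_le_pow_left₀ hτ₁ hτ₁Δ 2
  have hs2 : τ₂ ^ 2 ≤ Δ ^ 2 := pow_le_pow_left₀ hτ₂ hτ₂Δ 2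
  have hs12 : (τ₁ + τ₂) ^ 2 ≤ Δ ^ 2 := pow_le_pow_left₀ (by linarith) hτ12 2
  have hs12' : 0 ≤ τ₁ * τ₂ := mul_nonneg hτ₁ hτ₂
  have hdτ : |d * τ₃| ≤ Δ ^ 2 / 4 := by
    rw [abs_mul, abs_of_nonneg hτ₃]
    calc |d| * τ₃ ≤ Δ / 4 * Δ := by gcongr
      _ = Δ ^ 2 / 4 := by ring
  obtain ⟨hdτ1, hdτ2⟩ := abs_le.1 hdτ
  refine ⟨_, _, ?_, ?_, ((h1'.trans h2').trans h3').congr hsum rfl rfl rfl rfl⟩
  · have e : y + P * τ₁ + τ₁ ^ 2 / 2 + (P + τ₁) * τ₂ - τ₂ ^ 2 / 2 + (P + d) * τ₃ - y - P * Δ =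
        τ₁ ^ 2 / 2 + τ₁ * τ₂ - τ₂ ^ 2 / 2 + d * τ₃ := by rw [← hsum]; ring
    rw [e, abs_le]
    constructor <;> nlinarith
  · have b1 : |fc 1 1 x P y τ₁ - K x P y * τ₁| ≤ 40 * Δ * τ₁ := by
      apply abs_fc_sub_le hτ₁
      intro s hs
      have hs0 := hs.1
      have hsΔ : s ≤ Δ := by linarith [hs.2]
      obtain ⟨q1, q2⟩ := abs_le.1 (hpt s hs0)
      have hss : s ^ 2 ≤ Δ ^ 2 := pow_le_pow_left₀ hs0 hsΔ 2
      have hss0 : 0 ≤ s ^ 2 := sq_nonneg s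
      rw [show (40 : ℝ) * Δ = 20 * (2 * Δ) by ring]
      apply K_lip <;> (rw [abs_le]; constructor <;> linarith)
    have b2 : |fc 1 (-1) (x + τ₁) (P + τ₁) (y + P * τ₁ + τ₁ ^ 2 / 2) τ₂ - K x P y * τ₂| ≤
        40 * Δ * τ₂ := by
      apply abs_fc_sub_le hτ₂
      intro s hs
      have hs0 := hs.1
      have hsΔ : τ₁ + s ≤ Δ := by linarith [hs.2]
      obtain ⟨q1, q2⟩ := abs_le.1 (hpt (τ₁ + s) (by linarith))
      have hss : (τ₁ + s) ^ 2 ≤ Δ ^ 2 := pow_le_pow_left₀ (by linarith) hsΔ 2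
      have hss0 : 0 ≤ s ^ 2 := sq_nonneg s
      have hts : 0 ≤ τ₁ * s := mul_nonneg hτ₁ hs0
      have ht2 : 0 ≤ τ₁ ^ 2 := sq_nonneg _
      rw [show (40 : ℝ) * Δ = 20 * (2 * Δ) by ring]
      apply K_lip <;> (rw [abs_le]; constructor <;> linarith)
    have b3 : |fc (-2) 0 (x + τ₁ + τ₂) (P + d)
        (y + P * τ₁ + τ₁ ^ 2 / 2 + (P + τ₁) * τ₂ - τ₂ ^ 2 / 2) τ₃ - K x P y * τ₃| ≤
        40 * Δ * τ₃ := by
      apply abs_fc_sub_le hτ₃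
      intro s hs
      have hs0 := hs.1
      have hsΔ : τ₁ + τ₂ + s ≤ Δ := by linarith [hs.2]
      obtain ⟨q1, q2⟩ := abs_le.1 (hpt (τ₁ + τ₂ + s) (by linarith))
      have hds : |d * s| ≤ Δ ^ 2 / 4 := by
        rw [abs_mul, abs_of_nonneg hs0]
        calc |d| * s ≤ Δ / 4 * Δ := by gcongr; linarith
          _ = Δ ^ 2 / 4 := by ring
      obtain ⟨hds1, hds2⟩ := abs_le.1 hds
      have ex : P + d + 0 * s = P + d := by ring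
      have ey : y + P * τ₁ + τ₁ ^ 2 / 2 + (P + τ₁) * τ₂ - τ₂ ^ 2 / 2 + (P + d) * s +
          0 * s ^ 2 / 2 = y + P * (τ₁ + τ₂ + s) + (τ₁ ^ 2 / 2 + τ₁ * τ₂ - τ₂ ^ 2 / 2) +
          d * s := by ring
      rw [ex, ey]
      have z1 : τ₁ ^ 2 / 2 + τ₁ * τ₂ - τ₂ ^ 2 / 2 ≤ Δ ^ 2 / 2 := by nlinarith
      have z2 : -(Δ ^ 2 / 2) ≤ τ₁ ^ 2 / 2 + τ₁ * τ₂ - τ₂ ^ 2 / 2 := by nlinarith
      rw [show (40 : ℝ) * Δ = 20 * (2 * Δ) by ring]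
      apply K_lip <;> (rw [abs_le]; constructor <;> linarith)
    have t1 := abs_add_le (fc 1 1 x P y τ₁ - K x P y * τ₁)
      (fc 1 (-1) (x + τ₁) (P + τ₁) (y + P * τ₁ + τ₁ ^ 2 / 2) τ₂ - K x P y * τ₂)
    have t2 := abs_add_le ((fc 1 1 x P y τ₁ - K x P y * τ₁) +
      (fc 1 (-1) (x + τ₁) (P + τ₁) (y + P * τ₁ + τ₁ ^ 2 / 2) τ₂ - K x P y * τ₂))
      (fc (-2) 0 (x + τ₁ + τ₂) (P + d)
        (y + P * τ₁ + τ₁ ^ 2 / 2 + (P + τ₁) * τ₂ - τ₂ ^ 2 / 2) τ₃ - K x P y * τ₃)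
    have e : fc 1 1 x P y τ₁ + fc 1 (-1) (x + τ₁) (P + τ₁) (y + P * τ₁ + τ₁ ^ 2 / 2) τ₂ +
        fc (-2) 0 (x + τ₁ + τ₂) (P + d)
          (y + P * τ₁ + τ₁ ^ 2 / 2 + (P + τ₁) * τ₂ - τ₂ ^ 2 / 2) τ₃ - K x P y * Δ =
        ((fc 1 1 x P y τ₁ - K x P y * τ₁) +
        (fc 1 (-1) (x + τ₁) (P + τ₁) (y + P * τ₁ + τ₁ ^ 2 / 2) τ₂ - K x P y * τ₂)) +
        (fc (-2) 0 (x + τ₁ + τ₂) (P + d)
          (y + P * τ₁ + τ₁ ^ 2 / 2 + (P + τ₁) * τ₂ - τ₂ ^ 2 / 2) τ₃ - K x P y * τ₃) := by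
      rw [← hsum]; ring
    rw [e]
    have e2 : 40 * Δ * τ₁ + 40 * Δ * τ₂ + 40 * Δ * τ₃ = 40 * Δ ^ 2 := by
      rw [← mul_add, ← mul_add, hsum]; ring
    linarith

end

end Pool.Agent.Y860.FJ
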