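import Mathlib
import Pool.Agent.Y860.FJ.Chatter

open Set Filter Topology
open Pool.Agent.Helper562.STLC (E Conn)

namespace Pool.Agent.Y860.FJ

noncomputable section

variable {m k : ℕ} {φ : Fin k → Idx m}

/-- mean value estimate. -/
lemma mean_value {F F' : ℝ → ℝ} {a b h₀ C : ℝ} (hab : a ≤ b)
    (hF : ∀ s ∈ Icc a b, HasDerivAt F (F' s) s) (hK : ∀ s ∈ Icc a b, |F' s - h₀| ≤ C) :
    |F b - F a - h₀ * (b - a)| ≤ C * (b - a) := by
  have h := Pool.Agent.Helper562.STLC.abs_le_of_right_deriv (f := fun s => F s - h₀ * s)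
    (a := a) (b := b) (C := C)
    (fun s hs => ((hF s hs).continuousAt.sub (by fun_prop)).continuousWithinAt)
    (fun s hs => ⟨F' s - h₀, hK s (Ico_subset_Icc_self hs), by
      have h1 : HasDerivAt (fun s : ℝ => h₀ * s) h₀ s := by
        simpa using (hasDerivAt_id s).const_mul h₀
      exact ((hF s (Ico_subset_Icc_self hs)).sub h1).hasDerivWithinAt⟩)
    b (right_mem_Icc.2 hab)
  have e : F b - F a - h₀ * (b - a) = F b - h₀ * b - (F a - h₀ * a) := by ring
  rw [e]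
  exact h

lemma chatter (hφ : Function.Surjective φ) {σ : ℝ} (hσ : σ = 1 ∨ σ = -1) {ℓ x₀ : ℝ}
    {P Y Z : ℝ → ℝ} (hℓ0 : 0 < ℓ) (hℓ1 : ℓ ≤ 1)
    (hx : ∀ s ∈ Icc 0 ℓ, |x₀ + σ * s| ≤ 3 / 4)
    (hP : ∀ s ∈ Icc 0 ℓ, ∀ s' ∈ Icc 0 ℓ, |P s - P s'| ≤ |s - s'| / 4)
    (hPb : ∀ s ∈ Icc 0 ℓ, |P s| ≤ 1 / 2) (hYb : ∀ s ∈ Icc 0 ℓ, |Y s| ≤ 1 / 2)
    (hY : ∀ s ∈ Icc 0 ℓ, HasDerivAt Y (P s) s)
    (hZ : ∀ s ∈ Icc 0 ℓ, HasDerivAt Z (K (x₀ + σ * s) (P s) (Y s)) s)
    {ε : ℝ} (hε : 0 < ε) :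
    ∃ η > 0, ∀ y₀, |y₀ - Y 0| ≤ η → ∃ e c, |e - Y ℓ| ≤ ε ∧ |c - (Z ℓ - Z 0)| ≤ ε ∧
      Mv φ ℓ x₀ (P 0) y₀ (x₀ + σ * ℓ) (P ℓ) e c := by
  have hσ1 : |σ| = 1 := by rcases hσ with rfl | rfl <;> simp
  obtain ⟨n, hn⟩ := exists_nat_gt (max (16 : ℝ) (80 / ε))
  have hn8 : (16 : ℝ) < n := (le_max_left _ _).trans_lt hn
  have hnε : 80 / ε < n := (le_max_right _ _).trans_lt hn
  have hn0 : (0 : ℝ) < n := by linarith
  set Δ := ℓ / n with hΔ
  have hΔ0 : 0 < Δ := by positivity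
  have hΔn : n * Δ = ℓ := by rw [hΔ]; field_simp
  have hΔ16 : Δ ≤ 1 / 16 := by
    rw [hΔ, div_le_div_iff₀ hn0 (by norm_num)]
    linarith
  have hΔε : 80 * Δ ≤ ε := by
    rw [hΔ, mul_div_assoc', div_le_iff₀ hn0]
    rw [div_lt_iff₀ hε] at hnε
    nlinarith
  have hΔsq : Δ ^ 2 ≤ Δ / 16 := by nlinarith
  refine ⟨Δ ^ 2, by positivity, ?_⟩
  intro y₀ hy₀
  have key : ∀ i : ℕ, i ≤ n → ∃ y c, |y - Y (i * Δ)| ≤ (2 * i + 1) * Δ ^ 2 ∧
      |c - (Z (i * Δ) - Z 0)| ≤ 80 * i * Δ ^ 2 ∧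
      Mv φ (i * Δ) x₀ (P 0) y₀ (x₀ + σ * (i * Δ)) (P (i * Δ)) y c := by
    intro i
    induction i with
    | zero =>
      intro _
      refine ⟨y₀, 0, by simpa using hy₀, by simp, ?_⟩
      have := Mv.refl φ x₀ (P 0) y₀
      simpa using this
    | succ i ih =>
      intro hi
      obtain ⟨y, c, hy, hc, hM⟩ := ih (by omega)
      have hi' : (i : ℝ) + 1 ≤ n := by exact_mod_cast hi
      have hi0 : (0 : ℝ) ≤ i := Nat.cast_nonneg i
      have hiΔ : i * Δ + Δ ≤ ℓ := by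
        rw [← hΔn]; nlinarith
      have hiΔ0 : 0 ≤ i * Δ := by positivity
      set s := i * Δ with hs
      have hsI : s ∈ Icc 0 ℓ := ⟨by linarith, by linarith⟩
      have hs'I : s + Δ ∈ Icc 0 ℓ := ⟨by linarith, by linarith⟩
      have hnext : ((i + 1 : ℕ) : ℝ) * Δ = s + Δ := by rw [hs]; push_cast; ring
      have hsub : ∀ u ∈ Icc s (s + Δ), u ∈ Icc 0 ℓ := fun u hu =>
        ⟨hsI.1.trans hu.1, hu.2.trans hs'I.2⟩
      have hsum1 : (2 * i + 1) * Δ ^ 2 ≤ 3 * Δ := by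
        have : i * Δ ≤ 1 := by linarith
        nlinarith
      have hy34 : |y| ≤ 3 / 4 := by
        have h1 := hYb s hsI
        have h2 : |y| ≤ |y - Y s| + |Y s| := by
          have := abs_add_le (y - Y s) (Y s)
          simpa using this
        linarith
      have hd : |P (s + Δ) - P s| ≤ Δ / 4 := by
        have := hP (s + Δ) hs'I s hsI
        rwa [add_sub_cancel_left, abs_of_pos hΔ0] at this
      obtain ⟨y', c', h1, h2, h3⟩ := chatter_step hφ hσ (x := x₀ + σ * s) (P := P s) (y := y)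
        (d := P (s + Δ) - P s) hΔ0 hΔ16 hd (hx s hsI) (hPb s hsI) hy34
      have hPs : ∀ u ∈ Icc s (s + Δ), |P u - P s| ≤ Δ / 2 := by
        intro u hu
        have := hP u (hsub u hu) s hsI
        rw [abs_of_nonneg (by linarith [hu.1] : 0 ≤ u - s)] at this
        linarith [hu.2]
      have hYs : ∀ u ∈ Icc s (s + Δ), |Y u - Y s| ≤ Δ := by
        intro u hu
        have := mean_value (F := Y) (F' := P) (h₀ := 0) (C := 1 / 2) hu.1
          (fun w hw => hY w (hsub w ⟨hw.1, hw.2.trans hu.2⟩))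
          (fun w hw => by rw [sub_zero]; exact hPb w (hsub w ⟨hw.1, hw.2.trans hu.2⟩))
        rw [zero_mul, sub_zero] at this
        linarith [hu.2]
      have hYstep : |Y (s + Δ) - Y s - P s * Δ| ≤ Δ ^ 2 := by
        have := mean_value (F := Y) (F' := P) (h₀ := P s) (C := Δ / 2)
          (by linarith : s ≤ s + Δ) (fun u hu => hY u (hsub u hu)) hPs
        rw [add_sub_cancel_left] at this
        nlinarith
      have hZstep : |Z (s + Δ) - Z s - K (x₀ + σ * s) (P s) (Y s) * Δ| ≤ 20 * Δ ^ 2 := by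
        have := mean_value (F := Z) (F' := fun u => K (x₀ + σ * u) (P u) (Y u))
          (h₀ := K (x₀ + σ * s) (P s) (Y s)) (C := 20 * Δ)
          (by linarith : s ≤ s + Δ) (fun u hu => hZ u (hsub u hu)) (by
            intro u hu
            have huI := hsub u hu
            apply K_lip
            · linarith [hx s hsI]
            · linarith [hPb u huI]
            · linarith [hPb s hsI]
            · linarith [hx u huI]
            · linarith [hYb u huI]
            · linarith [hYb s hsI]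
            · have e : x₀ + σ * u - (x₀ + σ * s) = σ * (u - s) := by ring
              rw [e, abs_mul, hσ1, one_mul, abs_of_nonneg (by linarith [hu.1])]
              linarith [hu.2]
            · linarith [hPs u hu]
            · linarith [hYs u hu])
        rw [add_sub_cancel_left] at this
        linarith
      have hHs : |K (x₀ + σ * s) (P s) y - K (x₀ + σ * s) (P s) (Y s)| ≤ 20 * Δ := by
        apply K_lip
        · linarith [hx s hsI]
        · linarith [hPb s hsI]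
        · linarith [hPb s hsI]
        · linarith [hx s hsI]
        · linarith
        · linarith [hYb s hsI]
        · simpa using hΔ0.le
        · simpa using hΔ0.le
        · linarith
      refine ⟨y', c + c', ?_, ?_, ?_⟩
      · rw [hnext]
        have e : y' - Y (s + Δ) = (y' - y - P s * Δ) + (y - Y s) -
            (Y (s + Δ) - Y s - P s * Δ) := by ring
        rw [e]
        have t1 := abs_sub (y' - y - P s * Δ + (y - Y s)) (Y (s + Δ) - Y s - P s * Δ)
        have t2 := abs_add_le (y' - y - P s * Δ) (y - Y s)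
        push_cast
        linarith
      · rw [hnext]
        have e : c + c' - (Z (s + Δ) - Z 0) =
            (c' - K (x₀ + σ * s) (P s) y * Δ) + (c - (Z s - Z 0)) -
            (Z (s + Δ) - Z s - K (x₀ + σ * s) (P s) (Y s) * Δ) +
            (K (x₀ + σ * s) (P s) y - K (x₀ + σ * s) (P s) (Y s)) * Δ := by ring
        rw [e]
        have t1 := abs_add_le ((c' - K (x₀ + σ * s) (P s) y * Δ) + (c - (Z s - Z 0)) -
            (Z (s + Δ) - Z s - K (x₀ + σ * s) (P s) (Y s) * Δ))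
            ((K (x₀ + σ * s) (P s) y - K (x₀ + σ * s) (P s) (Y s)) * Δ)
        have t2 := abs_sub ((c' - K (x₀ + σ * s) (P s) y * Δ) + (c - (Z s - Z 0)))
          (Z (s + Δ) - Z s - K (x₀ + σ * s) (P s) (Y s) * Δ)
        have t3 := abs_add_le (c' - K (x₀ + σ * s) (P s) y * Δ) (c - (Z s - Z 0))
        have t4 : |(K (x₀ + σ * s) (P s) y - K (x₀ + σ * s) (P s) (Y s)) * Δ| ≤ 20 * Δ ^ 2 := by
          calc |(K (x₀ + σ * s) (P s) y - K (x₀ + σ * s) (P s) (Y s)) * Δ| =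
              |K (x₀ + σ * s) (P s) y - K (x₀ + σ * s) (P s) (Y s)| * Δ := by
                rw [abs_mul, abs_of_pos hΔ0]
            _ ≤ 20 * Δ * Δ := mul_le_mul_of_nonneg_right hHs hΔ0.le
            _ = 20 * Δ ^ 2 := by ring
        push_cast
        linarith
      · rw [hnext]
        refine (hM.trans h3).congr ?_ ?_ ?_ rfl rfl
        · ring
        · ring
        · ring
  obtain ⟨y, c, hy, hc, hM⟩ := key n le_rfl
  rw [hΔn] at hM hy hc
  have hb : n * Δ ^ 2 ≤ Δ := by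
    have : n * Δ ^ 2 = (n * Δ) * Δ := by ring
    rw [this, hΔn]
    nlinarith
  refine ⟨y, c, ?_, ?_, hM⟩
  · refine hy.trans ?_
    nlinarith
  · refine hc.trans ?_
    nlinarith

end

end Pool.Agent.Y860.FJ

namespace Pool.Agent.Y860.FJ

noncomputable section

variable {m k : ℕ} {φ : Fin k → Idx m}

/-- moving `x`, at an arbitrarily small cost. -/
lemma xmove (hφ : Function.Surjective φ) {x x' : ℝ} (hx : |x| ≤ 1 / 2) (hx' : |x'| ≤ 1 / 2)
    {ε : ℝ} (hε : 0 < ε) : ∃ T c, |x' - x| ≤ T ∧ T ≤ |x' - x| + ε ∧ |c| ≤ ε ∧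
      Mv φ T x 0 0 x' 0 0 c := by
  rcases eq_or_ne x x' with h | h
  · subst h
    exact ⟨0, 0, by simp, by simpa using hε.le, by simpa using hε.le, Mv.refl φ x 0 0⟩
  obtain ⟨hx1, hx2⟩ := abs_le.1 hx
  obtain ⟨hx3, hx4⟩ := abs_le.1 hx'
  obtain ⟨σ, hσ, hσx⟩ : ∃ σ : ℝ, (σ = 1 ∨ σ = -1) ∧ σ * |x' - x| = x' - x := by
    rcases le_total 0 (x' - x) with h1 | h1
    · exact ⟨1, Or.inl rfl, by rw [abs_of_nonneg h1]; ring⟩
    · exact ⟨-1, Or.inr rfl, by rw [abs_of_nonpos h1]; ring⟩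
  have hℓ0 : 0 < |x' - x| := abs_pos.2 (sub_ne_zero.2 h.symm)
  have hℓ1 : |x' - x| ≤ 1 := by rw [abs_le]; constructor <;> linarith
  -- the accuracy
  obtain ⟨κ, hκ0, hκ1, hκ2, hκ3⟩ : ∃ κ : ℝ, 0 < κ ∧ κ ≤ 1 / 4 ∧ κ ≤ ε / 2 ∧ √κ ≤ ε / 24 := by
    refine ⟨min (1 / 4) (min (ε / 2) ((ε / 24) ^ 2)), by positivity, min_le_left _ _,
      (min_le_right _ _).trans (min_le_left _ _), ?_⟩
    apply Real.sqrt_le_iff.2
    exact ⟨by positivity, (min_le_right _ _).trans (min_le_right _ _)⟩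
  have hxs : ∀ s ∈ Icc 0 |x' - x|, |x + σ * s| ≤ 3 / 4 := by
    intro s hs
    have h1 : |σ * s| ≤ 1 := by
      rcases hσ with rfl | rfl
      · rw [one_mul, abs_of_nonneg hs.1]; linarith [hs.2]
      · rw [neg_one_mul, abs_neg, abs_of_nonneg hs.1]; linarith [hs.2]
    rcases hσ with rfl | rfl
    · rw [one_mul] at *
      rcases le_total 0 (x' - x) with h2 | h2
      · rw [abs_of_nonneg h2] at hs
        rw [abs_le]; constructor <;> linarith [hs.1, hs.2]
      · have h3 := abs_of_nonpos h2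
        exfalso
        rw [h3] at hσx hℓ0
        linarith
    · rcases le_total 0 (x' - x) with h2 | h2
      · have h3 := abs_of_nonneg h2
        exfalso
        rw [h3] at hσx hℓ0
        linarith
      · rw [abs_of_nonpos h2] at hs
        rw [abs_le]; constructor <;> linarith [hs.1, hs.2]
  obtain ⟨η, hη, hch⟩ := chatter hφ hσ (ℓ := |x' - x|) (x₀ := x) (P := fun _ => 0)
    (Y := fun _ => 0) (Z := fun _ => 0) hℓ0 hℓ1 hxs
    (fun s _ s' _ => by simp only [sub_self, abs_zero]; positivity)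
    (fun s _ => by simp only [abs_zero]; norm_num) (fun s _ => by simp only [abs_zero]; norm_num)
    (fun s _ => hasDerivAt_const _ _)
    (fun s _ => by
      have e : K (x + σ * s) 0 0 = 0 := by simp [K]
      rw [e]
      exact hasDerivAt_const _ _) hκ0
  obtain ⟨e, c, he, hc, hM⟩ := hch 0 (by simpa using hη.le)
  simp only [sub_zero] at he hc
  have ex : x + σ * |x' - x| = x' := by rw [hσx]; ring
  rw [ex] at hM
  have hse : √|e| ≤ √κ := Real.sqrt_le_sqrt he
  obtain ⟨Ty, c₂, hTy0, hTy, hc₂, hM₂⟩ := ybump hφ (x := x') (y := e) (d := -e) hx'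
    (by linarith) (by rw [abs_neg]; linarith)
  rw [abs_neg] at hc₂ hTy
  rw [add_neg_cancel] at hM₂
  have hse0 := Real.sqrt_nonneg |e|
  refine ⟨|x' - x| + Ty, c + c₂, by linarith, by linarith, ?_, hM.trans hM₂⟩
  calc |c + c₂| ≤ |c| + |c₂| := abs_add_le _ _
    _ ≤ ε / 2 + ε / 2 := add_le_add (hc.trans hκ2) (hc₂.trans (by linarith))
    _ = ε := by ring

end

end Pool.Agent.Y860.FJ
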