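import Mathlib
import Pool.Agent.Y860.FJ.Path

open Set Filter Topology
open Pool.Agent.Helper562.STLC (E Conn)

namespace Pool.Agent.Y860.FJ

noncomputable section

variable {m k : ℕ} {φ : Fin k → Idx m}

lemma lipschitz_of_contDiffOn {P : ℝ → ℝ} (hP : ContDiffOn ℝ 1 P (Ioi 0)) {α β : ℝ}
    (hα : 0 < α) : ∃ C : ℝ, 0 < C ∧
    ∀ s ∈ Icc α β, ∀ s' ∈ Icc α β, |P s - P s'| ≤ C * |s - s'| := by
  have hsub : Icc α β ⊆ Ioi 0 := fun s hs => hα.trans_le hs.1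
  have hc : ContinuousOn (deriv P) (Icc α β) :=
    (hP.continuousOn_deriv_of_isOpen isOpen_Ioi le_rfl).mono hsub
  obtain ⟨C, hC⟩ := isCompact_Icc.exists_bound_of_continuousOn hc
  refine ⟨max C 1, by positivity, ?_⟩
  intro s hs s' hs'
  have := Convex.norm_image_sub_le_of_norm_deriv_le (f := P) (s := Icc α β) (C := max C 1)
    (x := s') (y := s)
    (fun u hu => (hP.differentiableOn one_ne_zero u (hsub hu)).differentiableAt
      (Ioi_mem_nhds (hsub hu)))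
    (fun u hu => (hC u hu).trans (le_max_left _ _)) (convex_Icc _ _) hs' hs
  exact this

lemma K_smul (x p y ε : ℝ) : K x (ε * p) (ε * y) = ε ^ 2 * K x p y := by
  unfold K; ring

lemma leg (hφ : Function.Surjective φ) {σ : ℝ} (hσ : σ = 1 ∨ σ = -1) {α β x₀ ℓ : ℝ}
    {P Y Z : ℝ → ℝ} (hα : 0 < α) (hβ : β ≤ 3 / 4) (hℓ0 : 0 < ℓ) (hℓ1 : ℓ ≤ 1)
    (hx : ∀ s ∈ Icc 0 ℓ, x₀ + σ * s ∈ Icc α β)
    (hP : ContDiffOn ℝ 1 P (Ioi 0)) (hY : ∀ s > 0, HasDerivAt Y (σ * P s) s)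
    (hZ : ∀ s > 0, HasDerivAt Z (σ * K s (P s) (Y s)) s) :
    ∃ ε₁ > 0, ∀ ε, 0 < ε → ε ≤ ε₁ → ∀ ε₂ > 0, ∃ η > 0, ∀ y₀, |y₀ - ε * Y x₀| ≤ η →
      ∃ e c, |e - ε * Y (x₀ + σ * ℓ)| ≤ ε₂ ∧
        |c - ε ^ 2 * (Z (x₀ + σ * ℓ) - Z x₀)| ≤ ε₂ ∧
        Mv φ ℓ x₀ (ε * P x₀) y₀ (x₀ + σ * ℓ) (ε * P (x₀ + σ * ℓ)) e c := by
  have hσ1 : |σ| = 1 := by rcases hσ with rfl | rfl <;> simp
  have hσ2 : σ * σ = 1 := by rcases hσ with rfl | rfl <;> simp
  have hsub : Icc α β ⊆ Ioi 0 := fun s hs => hα.trans_le hs.1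
  obtain ⟨C₁, hC₁0, hC₁⟩ := lipschitz_of_contDiffOn hP (β := β) hα
  obtain ⟨C₂, hC₂⟩ := isCompact_Icc.exists_bound_of_continuousOn (hP.continuousOn.mono hsub)
  obtain ⟨C₃, hC₃⟩ := isCompact_Icc.exists_bound_of_continuousOn (f := Y) (s := Icc α β)
    (fun s hs => (hY s (hsub hs)).continuousAt.continuousWithinAt)
  set C := max C₁ (max C₂ C₃) with hCdef
  have hC0 : 0 < C := lt_of_lt_of_le hC₁0 (le_max_left _ _)
  have hCC2 : C₂ ≤ C := (le_max_left _ _).trans (le_max_right _ _)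
  have hCC3 : C₃ ≤ C := (le_max_right _ _).trans (le_max_right _ _)
  refine ⟨1 / (4 * C), by positivity, ?_⟩
  intro ε hε0 hε1 ε₂ hε₂
  have hεC : ε * C ≤ 1 / 4 := by
    calc ε * C ≤ 1 / (4 * C) * C := by gcongr
      _ = 1 / 4 := by field_simp
  have hxd : ∀ s, HasDerivAt (fun s : ℝ => x₀ + σ * s) σ s := by
    intro s
    have := ((hasDerivAt_id s).const_mul σ).const_add x₀
    simpa using this
  have hch := chatter hφ hσ (ℓ := ℓ) (x₀ := x₀) (P := fun s => ε * P (x₀ + σ * s))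
    (Y := fun s => ε * Y (x₀ + σ * s)) (Z := fun s => ε ^ 2 * Z (x₀ + σ * s)) hℓ0 hℓ1
    (by
      intro s hs
      have := hx s hs
      rw [abs_of_nonneg (hα.le.trans this.1)]
      exact this.2.trans hβ)
    (by
      intro s hs s' hs'
      rw [← mul_sub, abs_mul, abs_of_pos hε0]
      have h1 := hC₁ _ (hx s hs) _ (hx s' hs')
      have e : x₀ + σ * s - (x₀ + σ * s') = σ * (s - s') := by ring
      rw [e, abs_mul, hσ1, one_mul] at h1
      calc ε * |P (x₀ + σ * s) - P (x₀ + σ * s')| ≤ ε * (C₁ * |s - s'|) := by gcongr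
        _ ≤ ε * (C * |s - s'|) := by gcongr; exact le_max_left _ _
        _ = (ε * C) * |s - s'| := by ring
        _ ≤ 1 / 4 * |s - s'| := by gcongr
        _ = |s - s'| / 4 := by ring)
    (by
      intro s hs
      rw [abs_mul, abs_of_pos hε0]
      have h1 : |P (x₀ + σ * s)| ≤ C := (hC₂ _ (hx s hs)).trans hCC2
      calc ε * |P (x₀ + σ * s)| ≤ ε * C := by gcongr
        _ ≤ 1 / 2 := by linarith)
    (by
      intro s hs
      rw [abs_mul, abs_of_pos hε0]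
      have h1 : |Y (x₀ + σ * s)| ≤ C := (hC₃ _ (hx s hs)).trans hCC3
      calc ε * |Y (x₀ + σ * s)| ≤ ε * C := by gcongr
        _ ≤ 1 / 2 := by linarith)
    (by
      intro s hs
      have h1 := ((hY _ (hsub (hx s hs))).comp s (hxd s)).const_mul ε
      refine h1.congr_deriv ?_
      calc ε * (σ * P (x₀ + σ * s) * σ) = (σ * σ) * (ε * P (x₀ + σ * s)) := by ring
        _ = ε * P (x₀ + σ * s) := by rw [hσ2, one_mul])
    (by
      intro s hs
      have h1 := ((hZ _ (hsub (hx s hs))).comp s (hxd s)).const_mul (ε ^ 2)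
      refine h1.congr_deriv ?_
      rw [K_smul]
      calc ε ^ 2 * (σ * K (x₀ + σ * s) (P (x₀ + σ * s)) (Y (x₀ + σ * s)) * σ) =
          (σ * σ) * (ε ^ 2 * K (x₀ + σ * s) (P (x₀ + σ * s)) (Y (x₀ + σ * s))) := by ring
        _ = _ := by rw [hσ2, one_mul])
    hε₂
  obtain ⟨η, hη, h⟩ := hch
  refine ⟨η, hη, ?_⟩
  intro y₀ hy₀
  obtain ⟨e, c, h1, h2, h3⟩ := h y₀ (by simpa using hy₀)
  refine ⟨e, c, h1, ?_, ?_⟩
  · simp only [mul_zero, add_zero] at h2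
    rw [mul_sub]
    exact h2
  · simpa using h3

end

end Pool.Agent.Y860.FJ
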