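import Mathlib
import Pool.Agent.Y860.FJ.Leg

open Set Filter Topology

namespace Pool.Agent.Y860.FJ

noncomputable section

def w (N τ : ℝ) : ℝ := τ ^ 2 * (3 * N - 2 * τ)
def w' (N τ : ℝ) : ℝ := 6 * τ * (N - τ)
def AA (N τ : ℝ) : ℝ := 12 * N ^ 2 * τ ^ 3 - 18 * N * τ ^ 4 + 36 / 5 * τ ^ 5

lemma hasDerivAt_w (N τ : ℝ) : HasDerivAt (w N) (w' N τ) τ := by
  have h1 : HasDerivAt (fun τ : ℝ => 3 * N - 2 * τ) (-2) τ := by
    simpa using ((hasDerivAt_id τ).const_mul 2).const_sub (3 * N)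
  have h := (hasDerivAt_pow 2 τ).mul h1
  refine h.congr_deriv ?_
  unfold w'
  push_cast
  ring

lemma hasDerivAt_AA (N τ : ℝ) : HasDerivAt (AA N) (w' N τ ^ 2) τ := by
  have hp : ∀ k : ℕ, ∀ a : ℝ, HasDerivAt (fun τ : ℝ => a * τ ^ (k + 1)) (a * ((k + 1) * τ ^ k)) τ := by
    intro k a
    have := (hasDerivAt_pow (k + 1) τ).const_mul a
    refine this.congr_deriv ?_
    push_cast; simp
  have h := ((hp 2 (12 * N ^ 2)).sub (hp 3 (18 * N))).add (hp 4 (36 / 5))
  refine h.congr_deriv ?_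
  unfold w'
  push_cast
  ring

/-- the profiles. -/
def Y1 (N α s : ℝ) : ℝ := w N (Real.log s - Real.log α) / √s
def P1 (N α s : ℝ) : ℝ :=
  (w' N (Real.log s - Real.log α) - w N (Real.log s - Real.log α) / 2) / (s * √s)
def Y2 (N α b s : ℝ) : ℝ := w N (Real.log s - Real.log α) * √s / b
def P2 (N α b s : ℝ) : ℝ :=
  -((w' N (Real.log s - Real.log α) + w N (Real.log s - Real.log α) / 2) / (b * √s))

lemma hasDerivAt_log_sub {α s : ℝ} (hs : 0 < s) :
    HasDerivAt (fun s => Real.log s - Real.log α) (1 / s) s := by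
  simpa using (Real.hasDerivAt_log hs.ne').sub_const (Real.log α)

lemma hasDerivAt_wlog {N α s : ℝ} (hs : 0 < s) :
    HasDerivAt (fun s => w N (Real.log s - Real.log α))
      (w' N (Real.log s - Real.log α) * (1 / s)) s := by
  have h := (hasDerivAt_w N (Real.log s - Real.log α)).comp s (hasDerivAt_log_sub (α := α) hs)
  exact h

lemma hasDerivAt_Alog {N α s : ℝ} (hs : 0 < s) :
    HasDerivAt (fun s => AA N (Real.log s - Real.log α))
      (w' N (Real.log s - Real.log α) ^ 2 * (1 / s)) s := by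
  have h := (hasDerivAt_AA N (Real.log s - Real.log α)).comp s (hasDerivAt_log_sub (α := α) hs)
  exact h

lemma hasDerivAt_Y1 {N α s : ℝ} (hs : 0 < s) : HasDerivAt (Y1 N α) (P1 N α s) s := by
  have h1 := hasDerivAt_wlog (N := N) (α := α) hs
  have h2 := Real.hasDerivAt_sqrt hs.ne'
  have hsq : √s ≠ 0 := (Real.sqrt_pos.2 hs).ne'
  have h := h1.div h2 hsq
  refine h.congr_deriv ?_
  unfold P1
  have hss : √s ^ 2 = s := Real.sq_sqrt hs.le
  rw [hss]
  field_simp
  rw [hss]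
  ring

lemma hasDerivAt_Y2 {N α b s : ℝ} (hs : 0 < s) (hb : 0 < b) :
    HasDerivAt (Y2 N α b) (-P2 N α b s) s := by
  have h1 := hasDerivAt_wlog (N := N) (α := α) hs
  have h2 := Real.hasDerivAt_sqrt hs.ne'
  have hsq : √s ≠ 0 := (Real.sqrt_pos.2 hs).ne'
  have h := (h1.mul h2).div_const b
  refine h.congr_deriv ?_
  unfold P2
  have hss : √s ^ 2 = s := Real.sq_sqrt hs.le
  have hss' : √s * √s = s := Real.mul_self_sqrt hs.le
  rw [neg_neg]
  field_simp
  rw [hss]
  ring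

lemma K_P1 {N α s : ℝ} (hs : 0 < s) : K s (P1 N α s) (Y1 N α s) =
    w' N (Real.log s - Real.log α) ^ 2 * (1 / s) - w N (Real.log s - Real.log α) ^ 2 := by
  have hsq : √s ≠ 0 := (Real.sqrt_pos.2 hs).ne'
  have hss : √s ^ 2 = s := Real.sq_sqrt hs.le
  unfold K P1 Y1
  generalize w' N (Real.log s - Real.log α) = a
  generalize w N (Real.log s - Real.log α) = c
  have e1 : s * ((a - c / 2) / (s * √s)) + c / √s / 2 = a / √s := by
    field_simp; ring
  rw [e1, div_pow, div_pow, hss]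
  field_simp

lemma K_P2 {N α b s : ℝ} (hs : 0 < s) (hb : 0 < b) : K s (P2 N α b s) (Y2 N α b s) =
    (s * w' N (Real.log s - Real.log α) ^ 2 - s ^ 2 * w N (Real.log s - Real.log α) ^ 2) /
      b ^ 2 := by
  have hsq : √s ≠ 0 := (Real.sqrt_pos.2 hs).ne'
  have hss : √s ^ 2 = s := Real.sq_sqrt hs.le
  unfold K P2 Y2
  generalize w' N (Real.log s - Real.log α) = a
  generalize w N (Real.log s - Real.log α) = c
  have e0 : s / √s = √s := by
    rw [div_eq_iff hsq, ← pow_two, hss]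
  have e1 : s * -((a + c / 2) / (b * √s)) + c * √s / b / 2 = -(√s * a / b) := by
    have : s * -((a + c / 2) / (b * √s)) = -((a + c / 2) / b * (s / √s)) := by
      field_simp
    rw [this, e0]
    field_simp
    ring
  rw [e1, neg_sq, div_pow, div_pow, mul_pow, mul_pow, hss]
  field_simp

lemma contDiffAt_logsub {α s : ℝ} (hs : 0 < s) :
    ContDiffAt ℝ 1 (fun s => Real.log s - Real.log α) s :=
  (Real.contDiffAt_log.2 hs.ne').sub contDiffAt_const

lemma contDiffAt_w {N α s : ℝ} (hs : 0 < s) :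
    ContDiffAt ℝ 1 (fun s => w N (Real.log s - Real.log α)) s := by
  unfold w
  exact ((contDiffAt_logsub hs).pow 2).mul
    (contDiffAt_const.sub (contDiffAt_const.mul (contDiffAt_logsub hs)))

lemma contDiffAt_w' {N α s : ℝ} (hs : 0 < s) :
    ContDiffAt ℝ 1 (fun s => w' N (Real.log s - Real.log α)) s := by
  unfold w'
  exact (contDiffAt_const.mul (contDiffAt_logsub hs)).mul
    (contDiffAt_const.sub (contDiffAt_logsub hs))

lemma contDiffAt_sqrt' {s : ℝ} (hs : 0 < s) : ContDiffAt ℝ 1 (fun s : ℝ => √s) s :=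
  contDiffAt_id.sqrt hs.ne'

lemma contDiffOn_P1 (N α : ℝ) : ContDiffOn ℝ 1 (P1 N α) (Ioi 0) := by
  intro s hs
  have hs' : (0 : ℝ) < s := hs
  apply ContDiffAt.contDiffWithinAt
  have hne : s * √s ≠ 0 := (mul_pos hs' (Real.sqrt_pos.2 hs')).ne'
  unfold P1
  exact ((contDiffAt_w' hs').sub ((contDiffAt_w hs').div_const 2)).div
    (contDiffAt_id.mul (contDiffAt_sqrt' hs')) hne

lemma contDiffOn_P2 (N α : ℝ) {b : ℝ} (hb : 0 < b) : ContDiffOn ℝ 1 (P2 N α b) (Ioi 0) := by
  intro s hs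
  have hs' : (0 : ℝ) < s := hs
  apply ContDiffAt.contDiffWithinAt
  have hne : b * √s ≠ 0 := (mul_pos hb (Real.sqrt_pos.2 hs')).ne'
  unfold P2
  exact (((contDiffAt_w' hs').add ((contDiffAt_w hs').div_const 2)).div
    (contDiffAt_const.mul (contDiffAt_sqrt' hs')) hne).neg

lemma exists_antideriv {F : ℝ → ℝ} (hF : ContinuousOn F (Ioi 0)) :
    ∃ Z : ℝ → ℝ, ∀ s > 0, HasDerivAt Z (F s) s := by
  refine ⟨fun s => ∫ u in (1 : ℝ)..s, F u, fun s hs => ?_⟩
  have hsub : uIcc 1 s ⊆ Ioi 0 := by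
    intro u hu
    rcases le_total 1 s with h | h
    · rw [uIcc_of_le h] at hu
      exact lt_of_lt_of_le one_pos hu.1
    · rw [uIcc_of_ge h] at hu
      exact lt_of_lt_of_le hs hu.1
  exact intervalIntegral.integral_hasDerivAt_right (hF.mono hsub).intervalIntegrable
    (hF.stronglyMeasurableAtFilter isOpen_Ioi s hs) (hF.continuousAt (Ioi_mem_nhds hs))

lemma continuousOn_K {P Y : ℝ → ℝ} (hP : ContinuousOn P (Ioi 0)) (hY : ContinuousOn Y (Ioi 0)) :
    ContinuousOn (fun s => K s (P s) (Y s)) (Ioi 0) := by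
  unfold K
  exact (((continuousOn_id.mul hP).add (hY.div_const 2)).pow 2).sub
    (continuousOn_id.mul (hY.pow 2))

/-- existence of the two profiles with a negative total cost. -/
lemma exists_profile {b : ℝ} (hb0 : 0 < b) (hb1 : b ≤ 1 / 2) :
    ∃ α, 0 < α ∧ α < b ∧ ∃ P₁ Y₁ Z₁ P₂ Y₂ Z₂ : ℝ → ℝ,
      ContDiffOn ℝ 1 P₁ (Ioi 0) ∧ ContDiffOn ℝ 1 P₂ (Ioi 0) ∧
      (∀ s > 0, HasDerivAt Y₁ (P₁ s) s) ∧
      (∀ s > 0, HasDerivAt Z₁ (K s (P₁ s) (Y₁ s)) s) ∧
      (∀ s > 0, HasDerivAt Y₂ (-P₂ s) s) ∧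
      (∀ s > 0, HasDerivAt Z₂ (-K s (P₂ s) (Y₂ s)) s) ∧
      P₁ α = 0 ∧ Y₁ α = 0 ∧ P₂ α = 0 ∧ Y₂ α = 0 ∧ P₁ b = P₂ b ∧ Y₁ b = Y₂ b ∧
      (Z₁ b - Z₁ α) + (Z₂ α - Z₂ b) < 0 := by
  set N := 80 / b with hN
  have hN0 : 0 < N := by positivity
  have hbN : b * N = 80 := by rw [hN]; field_simp
  have hN160 : 160 ≤ N := by
    rw [hN, le_div_iff₀ hb0]; linarith
  set α := b * Real.exp (-N) with hα
  have hα0 : 0 < α := by positivity
  have hαβ : α < b := by
    rw [hα]
    have : Real.exp (-N) < 1 := by rw [Real.exp_lt_one_iff]; linarith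
    nlinarith
  have hlog : Real.log b - Real.log α = N := by
    rw [hα, Real.log_mul hb0.ne' (Real.exp_pos _).ne', Real.log_exp]; ring
  have hlog2 : Real.log 2 ≤ 1 := by
    have := Real.log_two_lt_d9; linarith
  have hhalf : ∀ s, b / 2 ≤ s → N / 2 ≤ Real.log s - Real.log α := by
    intro s hs
    have h1 : Real.log (b / 2) ≤ Real.log s := Real.log_le_log (by positivity) hs
    rw [Real.log_div hb0.ne' (by norm_num)] at h1
    linarith
  have hle : ∀ s, 0 < s → s ≤ b → Real.log s - Real.log α ≤ N := by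
    intro s hs hsb
    have h1 : Real.log s ≤ Real.log b := Real.log_le_log hs hsb
    linarith
  have hα2 : α ≤ b / 2 := by
    rw [hα]
    have h1 : Real.exp (-N) ≤ 1 / 2 := by
      have h2 : (2 : ℝ) ≤ Real.exp N := by
        have := Real.add_one_le_exp N; linarith
      rw [Real.exp_neg, inv_eq_one_div]
      exact one_div_le_one_div_of_le (by norm_num) h2
    nlinarith
  have hw0 : w N 0 = 0 := by simp [w]
  have hw'0 : w' N 0 = 0 := by simp [w']
  have hwN : w N N = N ^ 3 := by unfold w; ring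
  have hw'N : w' N N = 0 := by simp [w']
  have hAN : AA N N = 6 / 5 * N ^ 5 := by unfold AA; ring
  have hA0 : AA N 0 = 0 := by simp [AA]
  have hcY1 : ContinuousOn (Y1 N α) (Ioi 0) := fun s hs =>
    (hasDerivAt_Y1 hs).continuousAt.continuousWithinAt
  have hcY2 : ContinuousOn (Y2 N α b) (Ioi 0) := fun s hs =>
    (hasDerivAt_Y2 hs hb0).continuousAt.continuousWithinAt
  obtain ⟨Z₁, hZ₁⟩ := exists_antideriv (continuousOn_K (contDiffOn_P1 N α).continuousOn hcY1)
  obtain ⟨Z₂, hZ₂⟩ := exists_antideriv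
    (continuousOn_K (contDiffOn_P2 N α hb0).continuousOn hcY2).neg
  refine ⟨α, hα0, hαβ, P1 N α, Y1 N α, Z₁, P2 N α b, Y2 N α b, Z₂, contDiffOn_P1 N α,
    contDiffOn_P2 N α hb0, fun s hs => hasDerivAt_Y1 hs, hZ₁,
    fun s hs => hasDerivAt_Y2 hs hb0, fun s hs => hZ₂ s hs, ?_, ?_, ?_, ?_, ?_, ?_, ?_⟩
  · simp [P1, hw0, hw'0]
  · simp [Y1, hw0]
  · simp [P2, hw0, hw'0]
  · simp [Y2, hw0]
  · simp only [P1, P2, hlog, hwN, hw'N]
    ring
  · simp only [Y1, Y2, hlog, hwN]
    have hss : √b ^ 2 = b := Real.sq_sqrt hb0.le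
    have hsq : √b ≠ 0 := (Real.sqrt_pos.2 hb0).ne'
    rw [div_eq_div_iff hsq hb0.ne']
    rw [mul_assoc, ← pow_two, hss]
  · -- the estimates
    have hd1 : ∀ s > 0, HasDerivAt (fun s => AA N (Real.log s - Real.log α) - Z₁ s)
        (w N (Real.log s - Real.log α) ^ 2) s := by
      intro s hs
      refine ((hasDerivAt_Alog (N := N) (α := α) hs).sub (hZ₁ s hs)).congr_deriv ?_
      rw [K_P1 hs]; ring
    have hd2 : ∀ s > 0, HasDerivAt (fun s => AA N (Real.log s - Real.log α) + Z₂ s)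
        (w' N (Real.log s - Real.log α) ^ 2 * (1 / s - s / b ^ 2) +
          s ^ 2 * w N (Real.log s - Real.log α) ^ 2 / b ^ 2) s := by
      intro s hs
      refine ((hasDerivAt_Alog (N := N) (α := α) hs).add (hZ₂ s hs)).congr_deriv ?_
      simp only [Pi.neg_apply]
      rw [K_P2 hs hb0]; ring
    have i1 := Pool.Agent.Helper562.STLC.le_of_right_deriv
      (f := fun s => AA N (Real.log s - Real.log α) - Z₁ s) (a := α) (b := b / 2) (C := 0) hα2
      (fun s hs => (hd1 s (hα0.trans_le hs.1)).continuousAt.continuousWithinAt)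
      (fun s hs => ⟨_, sq_nonneg _, (hd1 s (hα0.trans_le hs.1)).hasDerivWithinAt⟩)
    have i2 := Pool.Agent.Helper562.STLC.le_of_right_deriv
      (f := fun s => AA N (Real.log s - Real.log α) - Z₁ s) (a := b / 2) (b := b)
      (C := N ^ 6 / 16) (by linarith)
      (fun s hs => (hd1 s (by linarith [hs.1])).continuousAt.continuousWithinAt)
      (fun s hs => by
        have hs0 : 0 < s := by linarith [hs.1]
        refine ⟨_, ?_, (hd1 s hs0).hasDerivWithinAt⟩
        have h1 := hhalf s hs.1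
        have h2 := hle s hs0 hs.2.le
        have h3 : N ^ 3 / 4 ≤ w N (Real.log s - Real.log α) := by
          unfold w
          set τ := Real.log s - Real.log α with hτ
          have h4 : N ≤ 3 * N - 2 * τ := by linarith
          have h5 : (N / 2) ^ 2 ≤ τ ^ 2 := by
            apply pow_le_pow_left₀ (by positivity) h1
          calc N ^ 3 / 4 = (N / 2) ^ 2 * N := by ring
            _ ≤ τ ^ 2 * (3 * N - 2 * τ) := by gcongr
        calc N ^ 6 / 16 = (N ^ 3 / 4) ^ 2 := by ring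
          _ ≤ w N (Real.log s - Real.log α) ^ 2 := by gcongr)
    have i3 := Pool.Agent.Helper562.STLC.le_of_right_deriv
      (f := fun s => AA N (Real.log s - Real.log α) + Z₂ s) (a := α) (b := b) (C := 0) hαβ.le
      (fun s hs => (hd2 s (hα0.trans_le hs.1)).continuousAt.continuousWithinAt)
      (fun s hs => by
        have hs0 : 0 < s := hα0.trans_le hs.1
        refine ⟨_, ?_, (hd2 s hs0).hasDerivWithinAt⟩
        have h1 : 0 ≤ 1 / s - s / b ^ 2 := by
          rw [sub_nonneg, div_le_div_iff₀ (by positivity) hs0]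
          nlinarith [hs.2]
        positivity)
    simp only [hlog, sub_self, hAN, hA0] at i1 i2 i3
    have e5 : N ^ 6 / 16 * (b - b / 2) = 5 / 2 * N ^ 5 := by
      have : N ^ 6 / 16 * (b - b / 2) = (b * N) * N ^ 5 / 32 := by ring
      rw [this, hbN]; ring
    rw [e5] at i2
    have hN5 : 0 < N ^ 5 := by positivity
    linarith

end

end Pool.Agent.Y860.FJ
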