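import Mathlib
import Pool.Agent.Y860.FJ.Profile

open Set Filter Topology
open Pool.Agent.Helper562.STLC (E Conn Attainable STLC)

namespace Pool.Agent.Y860.FJ

noncomputable section

variable {m k : ℕ} {φ : Fin k → Idx m}

/-- arbitrarily fast loops at the origin with negative cost. -/
lemma neg_loop (hφ : Function.Surjective φ) {t ζ₀ : ℝ} (ht : 0 < t) (hζ₀ : 0 < ζ₀) :
    ∃ T ζ, 0 < T ∧ T < t ∧ 0 < ζ ∧ ζ < ζ₀ ∧ Mv φ T 0 0 0 0 0 0 (-ζ) := by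
  obtain ⟨b, hb0, hb1, hbt⟩ : ∃ b : ℝ, 0 < b ∧ b ≤ 1 / 2 ∧ 4 * b ≤ t / 4 :=
    ⟨min (1 / 2) (t / 16), by positivity, min_le_left _ _, by
      have := min_le_right (1 / 2) (t / 16); linarith⟩
  obtain ⟨α, hα0, hαb, P₁, Y₁, Z₁, P₂, Y₂, Z₂, hP₁, hP₂, hY₁, hZ₁, hY₂, hZ₂, a1, a2, a3, a4,
    a5, a6, hneg⟩ := exists_profile hb0 hb1
  obtain ⟨ε₁, hε₁, hleg1⟩ := leg (φ := φ) hφ (σ := 1) (Or.inl rfl) (α := α) (β := b) (x₀ := α)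
    (ℓ := b - α) (P := P₁) (Y := Y₁) (Z := Z₁) hα0 (by linarith) (by linarith) (by linarith)
    (fun s hs => ⟨by linarith [hs.1], by linarith [hs.2]⟩) hP₁
    (fun s hs => by simpa using hY₁ s hs) (fun s hs => by simpa using hZ₁ s hs)
  obtain ⟨ε₂, hε₂, hleg2⟩ := leg (φ := φ) hφ (σ := -1) (Or.inr rfl) (α := α) (β := b) (x₀ := b)
    (ℓ := b - α) (P := P₂) (Y := Y₂) (Z := Z₂) hα0 (by linarith) (by linarith) (by linarith)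
    (fun s hs => ⟨by linarith [hs.2], by linarith [hs.1]⟩) hP₂
    (fun s hs => by simpa using hY₂ s hs) (fun s hs => by simpa using hZ₂ s hs)
  set G := -((Z₁ b - Z₁ α) + (Z₂ α - Z₂ b)) with hG
  have hG0 : 0 < G := by linarith
  -- the amplitude
  obtain ⟨ε, hε0, hεε1, hεε2, hεG⟩ : ∃ ε : ℝ, 0 < ε ∧ ε ≤ ε₁ ∧ ε ≤ ε₂ ∧ ε ^ 2 * G < ζ₀ / 2 := by
    refine ⟨min (min ε₁ ε₂) (min 1 (ζ₀ / (4 * G))), by positivity,
      (min_le_left _ _).trans (min_le_left _ _), (min_le_left _ _).trans (min_le_right _ _), ?_⟩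
    set ε := min (min ε₁ ε₂) (min 1 (ζ₀ / (4 * G))) with hε
    have h0 : 0 < ε := by positivity
    have h1 : ε ≤ 1 := (min_le_right _ _).trans (min_le_left _ _)
    have h2 : ε ≤ ζ₀ / (4 * G) := (min_le_right _ _).trans (min_le_right _ _)
    have h3 : ε ^ 2 ≤ ε := by nlinarith
    calc ε ^ 2 * G ≤ ε * G := mul_le_mul_of_nonneg_right h3 hG0.le
      _ ≤ ζ₀ / (4 * G) * G := by gcongr
      _ = ζ₀ / 4 := by field_simp
      _ < ζ₀ / 2 := by linarith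
  set ζ₁ := ε ^ 2 * G with hζ₁
  have hζ₁0 : 0 < ζ₁ := by positivity
  -- the accuracy
  obtain ⟨κ, hκ0, hκ1, hκ2, hκ3, hκ4, hκ5⟩ : ∃ κ : ℝ, 0 < κ ∧ κ ≤ 1 / 4 ∧ κ ≤ ζ₁ / 16 ∧
      √κ ≤ ζ₁ / 64 ∧ √κ ≤ t / 8 ∧ κ ≤ t / 16 := by
    refine ⟨min (min (1 / 4) (min (ζ₁ / 16) (t / 16))) (min ((ζ₁ / 64) ^ 2) ((t / 8) ^ 2)),
      by positivity,
      (min_le_left _ _).trans (min_le_left _ _),
      ((min_le_left _ _).trans (min_le_right _ _)).trans (min_le_left _ _),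
      ?_, ?_, ((min_le_left _ _).trans (min_le_right _ _)).trans (min_le_right _ _)⟩
    · apply Real.sqrt_le_iff.2
      exact ⟨by positivity, (min_le_right _ _).trans (min_le_left _ _)⟩
    · apply Real.sqrt_le_iff.2
      exact ⟨by positivity, (min_le_right _ _).trans (min_le_right _ _)⟩
  obtain ⟨η₂, hη₂, h2⟩ := hleg2 ε hε0 hεε2 κ hκ0
  obtain ⟨η₁, hη₁, h1⟩ := hleg1 ε hε0 hεε1 (min κ η₂) (by positivity)
  obtain ⟨e₁, k₁, q1, q2, q3⟩ := h1 0 (by rw [a2]; simpa using hη₁.le)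
  have eb : α + 1 * (b - α) = b := by ring
  have ea : b + -1 * (b - α) = α := by ring
  rw [eb] at q1 q2 q3
  obtain ⟨e₂, k₂, r1, r2, r3⟩ := h2 e₁ (by
    rw [← a6]
    exact q1.trans (min_le_right _ _))
  rw [ea] at r1 r2 r3
  rw [a4, mul_zero, sub_zero] at r1
  rw [a3, mul_zero, ← a5] at r3
  rw [a1, mul_zero] at q3
  have hse : √|e₂| ≤ √κ := Real.sqrt_le_sqrt r1
  have hα2 : |α| ≤ 1 / 2 := by rw [abs_of_pos hα0]; linarith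
  obtain ⟨Ty, c₂, hTy0, hTy, hc₂, hM₂⟩ := ybump hφ (x := α) (y := e₂) (d := -e₂)
    hα2 (by linarith) (by rw [abs_neg]; linarith)
  rw [abs_neg] at hc₂ hTy
  obtain ⟨T₂, c₃, hT₂, hT₂', hc₃, m2⟩ := xmove hφ (x := 0) (x' := α) (by simp) hα2 hκ0
  obtain ⟨T₃, c₄, hT₃, hT₃', hc₄, m3⟩ := xmove hφ (x := α) (x' := 0) hα2 (by simp) hκ0
  rw [sub_zero, abs_of_pos hα0] at hT₂ hT₂'
  rw [zero_sub, abs_neg, abs_of_pos hα0] at hT₃ hT₃'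
  rw [add_neg_cancel] at hM₂
  have hall := (((m2.trans q3).trans r3).trans hM₂).trans m3
  have q2' := q2.trans (min_le_left κ η₂)
  obtain ⟨hc1, hc2⟩ := abs_le.1 q2'
  obtain ⟨hd1, hd2⟩ := abs_le.1 r2
  obtain ⟨he1, he2⟩ := abs_le.1 hc₂
  obtain ⟨hf1, hf2⟩ := abs_le.1 hc₃
  obtain ⟨hg1, hg2⟩ := abs_le.1 hc₄
  have hsum : ε ^ 2 * (Z₁ b - Z₁ α) + ε ^ 2 * (Z₂ α - Z₂ b) = -ζ₁ := by
    rw [hζ₁, hG]; ring
  have hse0 := Real.sqrt_nonneg |e₂|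
  refine ⟨T₂ + (b - α) + (b - α) + Ty + T₃, -(c₃ + k₁ + k₂ + c₂ + c₄), ?_, ?_, ?_, ?_, ?_⟩
  · linarith
  · linarith
  · linarith
  · linarith
  · refine hall.congr rfl rfl rfl rfl ?_
    ring

end

end Pool.Agent.Y860.FJ
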