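import Mathlib
import Pool.Agent.Y860.FJ.Loop

open Set Filter Topology
open Pool.Agent.Helper562.STLC (E Conn Attainable STLC)

namespace Pool.Agent.Y860.FJ

noncomputable section

variable {m k : ℕ} {φ : Fin k → Idx m}

lemma rflow_deriv (j : Fin m) (z s : ℝ) (r : Fin (m + 4) → ℝ) {S : Set ℝ} :
    HasDerivWithinAt (fun s => st 0 0 0 z (fun l : Fin (m + 4) =>
      if l.val = j.val + 4 then r l + s else r l))
    (fld m 0 0 (.inr j) (st 0 0 0 z (fun l : Fin (m + 4) =>
      if l.val = j.val + 4 then r l + s else r l))) S s := by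
  rw [hasDerivWithinAt_iff_hasFDerivWithinAt, hasFDerivWithinAt_euclidean]
  intro l
  by_cases h0 : l.val = 0
  · simp only [st, h0, if_true]
    refine ((hasDerivAt_const s (0 : ℝ)).hasDerivWithinAt.hasFDerivWithinAt).congr_fderiv ?_
    ext; simp [fld, h0, cv]
  by_cases h1 : l.val = 1
  · simp only [st, h1, if_true, one_ne_zero, if_false]
    refine ((hasDerivAt_const s (0 : ℝ)).hasDerivWithinAt.hasFDerivWithinAt).congr_fderiv ?_
    ext; simp [fld, h1, cv]
  by_cases h2 : l.val = 2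
  · simp only [st, h2, if_true, OfNat.ofNat_ne_zero, OfNat.ofNat_ne_one, if_false]
    refine ((hasDerivAt_const s (0 : ℝ)).hasDerivWithinAt.hasFDerivWithinAt).congr_fderiv ?_
    ext; simp [fld, h2, c1]
  by_cases h3 : l.val = 3
  · simp only [st, h3, if_true, OfNat.ofNat_ne_zero, OfNat.ofNat_ne_one, if_false,
      Nat.reduceEqDiff]
    refine ((hasDerivAt_const s z).hasDerivWithinAt.hasFDerivWithinAt).congr_fderiv ?_
    ext; simp [fld, h3, c0, c1, c2, K]
  by_cases hj : l.val = j.val + 4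
  · simp only [st, h0, h1, h2, h3, if_false, hj, if_true]
    refine (((hasDerivAt_id s).const_add (r l)).hasDerivWithinAt.hasFDerivWithinAt).congr_fderiv
      ?_
    ext; simp [fld, h0, h1, h2, h3, cv, hj, -Fin.val_eq_zero_iff]
  · simp only [st, h0, h1, h2, h3, hj, if_false]
    refine ((hasDerivAt_const s (r l)).hasDerivWithinAt.hasFDerivWithinAt).congr_fderiv ?_
    ext; simp [fld, h0, h1, h2, h3, cv, hj, -Fin.val_eq_zero_iff]

/-- moving one of the further coordinates. -/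
lemma rmove (hφ : Function.Surjective φ) {a : E (m + 4)} {T z : ℝ} {r : Fin (m + 4) → ℝ}
    (h : Conn (fam m 0 0 φ) a T (st 0 0 0 z r)) (j : Fin m) {ρ : ℝ} (hρ : 0 ≤ ρ) :
    Conn (fam m 0 0 φ) a (T + ρ) (st 0 0 0 z (fun l : Fin (m + 4) =>
      if l.val = j.val + 4 then r l + ρ else r l)) := by
  rcases hρ.eq_or_lt with h0 | h0
  · subst h0
    simpa using h
  · obtain ⟨i', hi'⟩ := hφ (.inr j)
    have hs := h.step (θ := ρ) h0 i' (fun s => st 0 0 0 z (fun l : Fin (m + 4) =>
      if l.val = j.val + 4 then r l + s else r l))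
      (by simp) (fun s _ => by
        simp only [fam, hi']
        exact rflow_deriv j z s r)
    exact hs

lemma st_zero : (st 0 0 0 0 (fun _ => 0) : E (m + 4)) = 0 := by
  ext l
  simp [st]

lemma eq_st (w : E (m + 4)) : w = st (w (c0 m)) (w (c1 m)) (w (c2 m)) (w (c3 m)) w := by
  ext l
  by_cases h0 : l.val = 0
  · have : l = c0 m := Fin.ext h0
    subst this; simp
  by_cases h1 : l.val = 1
  · have : l = c1 m := Fin.ext h1
    subst this; simp
  by_cases h2 : l.val = 2
  · have : l = c2 m := Fin.ext h2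
    subst this; simp
  by_cases h3 : l.val = 3
  · have : l = c3 m := Fin.ext h3
    subst this; simp
  · simp [st, h0, h1, h2, h3, -Fin.val_eq_zero_iff]

/-- reaching the further coordinates. -/
lemma further (hφ : Function.Surjective φ) (w : Fin (m + 4) → ℝ) {u : ℝ}
    (hw0 : ∀ l, 0 ≤ w l) (hw : ∀ l, w l ≤ u) :
    ∃ T, 0 ≤ T ∧ T ≤ m * u ∧ Conn (fam m 0 0 φ) (0 : E (m + 4)) T (st 0 0 0 0 w) := by
  have key : ∀ i : ℕ, i ≤ m → ∃ T, 0 ≤ T ∧ T ≤ i * u ∧
      Conn (fam m 0 0 φ) (0 : E (m + 4)) T (st 0 0 0 0 (fun l : Fin (m + 4) =>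
        if l.val < 4 + i ∧ 4 ≤ l.val then w l else 0)) := by
    intro i
    induction i with
    | zero =>
      intro _
      refine ⟨0, le_rfl, by simp, ?_⟩
      have e : (fun l : Fin (m + 4) => if l.val < 4 + 0 ∧ 4 ≤ l.val then w l else 0) =
          fun _ => 0 := by
        funext l
        have : ¬ (l.val < 4 + 0 ∧ 4 ≤ l.val) := by omega
        simp only [this, if_false]
      rw [e, st_zero]
      exact Conn.refl
    | succ i ih =>
      intro hi
      obtain ⟨T, hT0, hT1, hT⟩ := ih (by omega)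
      have hmv := rmove hφ hT ⟨i, by omega⟩ (hw0 ⟨i + 4, by omega⟩)
      have h00 := hw0 ⟨i + 4, by omega⟩
      refine ⟨T + w ⟨i + 4, by omega⟩, by linarith, ?_, ?_⟩
      · push_cast
        have := hw ⟨i + 4, by omega⟩
        linarith
      · convert hmv using 2
        funext l
        by_cases h1 : l.val = i + 4
        · have h2 : l.val < 4 + (i + 1) ∧ 4 ≤ l.val := by omega
          have h3 : ¬ (l.val < 4 + i ∧ 4 ≤ l.val) := by omega
          have h4 : l = ⟨i + 4, by omega⟩ := Fin.ext h1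
          rw [if_pos h2, if_pos h1, if_neg h3, zero_add, h4]
        · by_cases h2 : l.val < 4 + i ∧ 4 ≤ l.val
          · have h3 : l.val < 4 + (i + 1) ∧ 4 ≤ l.val := by omega
            simp only [h3, h2, h1, if_true, if_false, and_self]
          · have h3 : ¬ (l.val < 4 + (i + 1) ∧ 4 ≤ l.val) := by omega
            simp only [h3, h2, h1, if_false]
  obtain ⟨T, hT0, hT1, hT⟩ := key m le_rfl
  refine ⟨T, hT0, hT1, ?_⟩
  have e : (st 0 0 0 0 (fun l : Fin (m + 4) => if l.val < 4 + m ∧ 4 ≤ l.val then w l else 0) :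
      E (m + 4)) = st 0 0 0 0 w := by
    ext l
    simp only [st]
    by_cases h0 : l.val = 0
    · simp only [h0, if_true]
    by_cases h1 : l.val = 1
    · simp only [h1, if_true, one_ne_zero, if_false]
    by_cases h2 : l.val = 2
    · simp only [h2, if_true, OfNat.ofNat_ne_zero, OfNat.ofNat_ne_one, if_false]
    by_cases h3 : l.val = 3
    · simp only [h3, if_true, OfNat.ofNat_ne_zero, OfNat.ofNat_ne_one, if_false,
        Nat.reduceEqDiff]
    · have h4 : l.val < 4 + m ∧ 4 ≤ l.val := by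
        have := l.isLt
        omega
      simp only [h0, h1, h2, h3, h4, if_false, if_true, and_self]
  rw [← e]
  exact hT

lemma abs_coord_le (w : E (m + 4)) (j : Fin (m + 4)) : |w j| ≤ ‖w‖ := by
  have := PiLp.norm_apply_le w j
  simpa using this

/-- The unperturbed family is small-time locally controllable at the origin. -/
lemma stlc_fam (hφ : Function.Surjective φ) : STLC (fam m 0 0 φ) := by
  intro t₀ ht₀
  set t := t₀ / (2 * (m + 1)) with htdef
  have ht : 0 < t := by positivity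
  have htt : (m + 1) * t = t₀ / 2 := by rw [htdef]; field_simp
  set D₀ : ℝ := 59 / 24 * (t / 24) ^ 5 with hD₀
  have hD₀0 : 0 < D₀ := by positivity
  obtain ⟨T₁, ζ, hT₁0, hT₁, hζ0, hζ, hneg⟩ := neg_loop hφ (t := t / 4) (ζ₀ := D₀ / 2)
    (by linarith) (by linarith)
  obtain ⟨u, hu0, hu1, huζ, hut, huT, hum⟩ : ∃ u : ℝ, 0 < u ∧ u ≤ 1 / 2 ∧ 40 * u ≤ ζ ∧
      40 * u ≤ t ∧ u ≤ T₁ ∧ m * u ≤ t₀ / 16 := by
    refine ⟨min (min (1 / 2) T₁) (min (ζ / 40) (min (t / 40) (t₀ / (16 * (m + 1))))),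
      by positivity, (min_le_left _ _).trans (min_le_left _ _), ?_, ?_,
      (min_le_left _ _).trans (min_le_right _ _), ?_⟩
    · have := (min_le_right (min (1 / 2) T₁)
        (min (ζ / 40) (min (t / 40) (t₀ / (16 * (m + 1)))))).trans (min_le_left _ _)
      linarith
    · have := ((min_le_right (min (1 / 2) T₁)
        (min (ζ / 40) (min (t / 40) (t₀ / (16 * (m + 1)))))).trans
        (min_le_right _ _)).trans (min_le_left _ _)
      linarith
    · have := ((min_le_right (min (1 / 2) T₁)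
        (min (ζ / 40) (min (t / 40) (t₀ / (16 * (m + 1)))))).trans
        (min_le_right _ _)).trans (min_le_right _ _)
      calc (m : ℝ) * _ ≤ m * (t₀ / (16 * (m + 1))) := by gcongr
        _ ≤ (m + 1) * (t₀ / (16 * (m + 1))) := by
          have : 0 ≤ t₀ / (16 * ((m : ℝ) + 1)) := by positivity
          nlinarith
        _ = t₀ / 16 := by field_simp
  rw [mem_interior_iff_mem_nhds, Metric.mem_nhds_iff]
  refine ⟨u ^ 2 / 2, by positivity, ?_⟩
  intro w hw
  rw [mem_ball_zero_iff] at hw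
  have hcoord : ∀ j, |w j| < u ^ 2 / 2 := fun j => (abs_coord_le w j).trans_lt hw
  have hu2 : u ^ 2 / 2 ≤ u / 4 := by nlinarith
  have h0 := hcoord (c0 m)
  have h1 := hcoord (c1 m)
  have h3 := hcoord (c2 m)
  have h4 := hcoord (c3 m)
  set d := w (c2 m) - w (c1 m) * |w (c1 m)| with hd
  have hd2 : |d| ≤ u ^ 2 := by
    have e1 : |(w (c1 m) * |w (c1 m)|)| = |w (c1 m)| * |w (c1 m)| := by
      rw [abs_mul, abs_abs]
    have e2 : |d| ≤ |w (c2 m)| + |(w (c1 m) * |w (c1 m)|)| := abs_sub _ _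
    rw [e1] at e2
    have e3 := abs_nonneg (w (c1 m))
    nlinarith
  have hsd : √|d| ≤ u := Real.sqrt_le_iff.2 ⟨hu0.le, hd2⟩
  have hsd0 := Real.sqrt_nonneg |d|
  have hx0 : |w (c0 m)| ≤ 1 / 2 := by linarith
  obtain ⟨Ty, c₁, hTy0, hTy, hc₁, m3⟩ := ybump hφ (x := w (c0 m)) (y := 0) (d := d) hx0
    (by simp) (by nlinarith)
  obtain ⟨c₂, hc₂, m4⟩ := pmove hφ (x := w (c0 m)) (y := 0 + d) (p₁ := w (c1 m)) hx0
    (by rw [zero_add]; nlinarith) (by linarith)
  obtain ⟨Tx, c₀, hTx, hTx', hc₀, m1⟩ := xmove hφ (x := 0) (x' := w (c0 m)) (by simp) hx0 hu0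
  rw [sub_zero] at hTx hTx'
  have hfin := (m1.trans m3).trans m4
  obtain ⟨a1, a2⟩ := abs_le.1 hc₁
  obtain ⟨b1, b2⟩ := abs_le.1 hc₂
  obtain ⟨d1, d2⟩ := abs_le.1 hc₀
  obtain ⟨z1, z2⟩ := abs_le.1 h4.le
  set D := w (c3 m) + ζ - (c₀ + c₁ + c₂) with hD
  have hD1 : 0 ≤ D := by linarith
  have hD2 : D ≤ D₀ := by linarith
  -- the positive loop
  set a := (24 * D / 59) ^ ((5 : ℕ) : ℝ)⁻¹ with ha
  have ha5 : a ^ 5 = 24 * D / 59 := Real.rpow_inv_natCast_pow (by positivity) (by norm_num)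
  have ha0 : 0 ≤ a := by positivity
  have hat : a ≤ t / 24 := by
    rw [← pow_le_pow_iff_left₀ ha0 (by positivity) (by norm_num : (5 : ℕ) ≠ 0), ha5]
    rw [hD₀] at hD2
    linarith
  have hloop := ploop hφ ha0
  have hcost : 59 / 24 * a ^ 5 = D := by rw [ha5]; ring
  rw [hcost] at hloop
  have hall := (hloop.trans hneg).trans hfin
  set Tb := 6 * a + T₁ + (Tx + Ty + 3 / 2 * |w (c1 m)|) with hTb
  have hw1 := abs_nonneg (w (c1 m))
  have hw0 := abs_nonneg (w (c0 m))
  have hTb1 : T₁ ≤ Tb := by linarith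
  have hTb2 : Tb ≤ t := by linarith
  obtain ⟨Tr, hTr0, hTr1, hTr⟩ := further hφ (fun l => w l + Tb) (u := Tb + u)
    (fun l => by
      have := (abs_le.1 (hcoord l).le).1
      linarith)
    (fun l => by
      have := (abs_le.1 (hcoord l).le).2
      linarith)
  have hend := hall 0 Tr 0 (fun l => w l + Tb) hTr
  have hy : (0 : ℝ) + d + w (c1 m) * |w (c1 m)| = w (c2 m) := by rw [hd]; ring
  have hz : (0 : ℝ) + (D + -ζ + (c₀ + c₁ + c₂)) = w (c3 m) := by rw [hD]; ring
  have hr : (fun l => w l + Tb - Tb) = (w : Fin (m + 4) → ℝ) := by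
    funext l; ring
  rw [hy, hz, hr, ← eq_st w] at hend
  apply hend.mem_attainable
  · linarith
  · have hmT : (m : ℝ) * Tb ≤ m * t := by gcongr
    have e1 : (m : ℝ) * (Tb + u) = m * Tb + m * u := by ring
    have e2 : ((m : ℝ) + 1) * t = m * t + t := by ring
    linarith

end

end Pool.Agent.Y860.FJ
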