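import Mathlib
import Pool.Agent.Helper562.STLCLower

open Set Filter Topology
open Pool.Agent.Helper562.STLC (GG GG' LL LL_ge hasDerivAt_GG pointwise abs_le_of_right_deriv
  le_of_right_deriv)

namespace Pool.Agent.Y860.FJ

noncomputable section

lemma GG'_nonpos {δ : ℝ} (hδ : 0 < δ) (x : ℝ) : GG' δ x ≤ 0 := by
  have hL := LL_ge δ x
  set η := 1 / LL δ x with hη
  have hη0 : 0 < η := by positivity
  have hη8 : η ≤ 1 / 8 := by
    rw [hη]; exact one_div_le_one_div_of_le (by norm_num) hL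
  set ρ := x ^ 2 / (δ ^ 2 + x ^ 2) with hρ
  have hρ0 : 0 ≤ ρ := by positivity
  have hρ1 : ρ ≤ 1 := by
    rw [hρ, div_le_one (by positivity)]
    nlinarith
  have hG' : GG' δ x = -η + 2 * ρ * η ^ 2 := by unfold GG'; rw [hη, hρ]
  rw [hG']
  have h1 : ρ * η ^ 2 ≤ 1 * η ^ 2 := mul_le_mul_of_nonneg_right hρ1 (sq_nonneg _)
  nlinarith

/-- The pointwise inequality, the speed of `x` being bounded from above only. -/
lemma pointwise' {κ V x p y a : ℝ} (hκ : 0 < κ) (hκ1 : κ ≤ 1 / 20) (hV : V = κ ^ 2)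
    (hx : |x| ≤ 1) (hp : |p| ≤ 1) (ha : a ≤ 1) :
    -12 * Real.exp (-(1 / (8 * κ))) ^ 2 ≤ (x * p + y / 2) ^ 2 - V * y ^ 2 +
      (GG' (Real.exp (-(1 / (8 * κ)))) x * a * y ^ 2 +
        GG (Real.exp (-(1 / (8 * κ)))) x * (2 * y * p)) := by
  rcases le_total (-1) a with h | h
  · exact pointwise hκ hκ1 hV hx hp (abs_le.2 ⟨h, ha⟩)
  · have h1 := pointwise (y := y) (a := -1) hκ hκ1 hV hx hp (by norm_num)
    have h2 := GG'_nonpos (Real.exp_pos (-(1 / (8 * κ)))) x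
    have h3 : 0 ≤ GG' (Real.exp (-(1 / (8 * κ)))) x * (a + 1) * y ^ 2 :=
      mul_nonneg (mul_nonneg_of_nonpos_of_nonpos h2 (by linarith)) (sq_nonneg y)
    have e : GG' (Real.exp (-(1 / (8 * κ)))) x * a * y ^ 2 =
        GG' (Real.exp (-(1 / (8 * κ)))) x * (-1) * y ^ 2 +
        GG' (Real.exp (-(1 / (8 * κ)))) x * (a + 1) * y ^ 2 := by ring
    rw [e]
    linarith

lemma end_nonneg' {m : ℕ} {T₀ : ℝ} (hT₀ : T₀ ≤ 1 / 400)
    (hthr : ∀ V, 0 < V → V ≤ T₀ → 12 * Real.exp (-(1 / (8 * √V))) ^ 2 ≤ (V / 2) ^ (2 * m + 1))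
    {T : ℝ} (hT : 0 < T) (hTT : 2 * T < T₀) {x p y z : ℝ → ℝ}
    (hxc : ContinuousOn x (Icc 0 T)) (hpc : ContinuousOn p (Icc 0 T))
    (hyc : ContinuousOn y (Icc 0 T))
    (hzc : ContinuousOn z (Icc 0 T)) (hx0 : x 0 = 0) (hp0 : p 0 = 0)
    (hy0 : y 0 = 0) (hz0 : z 0 = 0)
    (hd : ∀ s ∈ Ico 0 T, ∃ a b, a ≤ 1 ∧ |a| ≤ 2 ∧ |b| ≤ 1 ∧
      HasDerivWithinAt x a (Ici s) s ∧ HasDerivWithinAt p b (Ici s) s ∧
      HasDerivWithinAt y (p s) (Ici s) s ∧
      HasDerivWithinAt z ((x s * p s + y s / 2) ^ 2 - x s * y s ^ 2 + x s ^ (2 * m)) (Ici s) s)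
    (hxT : x T = 0) : 0 ≤ z T := by
  -- elementary bounds
  have hpb : ∀ s ∈ Icc 0 T, |p s| ≤ s := by
    intro s hs
    have := abs_le_of_right_deriv (C := 1) hpc (fun s hs => by
      obtain ⟨a, b, ha, ha', hb, h1, h2, h4, h5⟩ := hd s hs
      exact ⟨b, hb, h2⟩) s hs
    simpa [hp0] using this
  have hvl : ∀ r ∈ Icc 0 T, ∀ s ∈ Icc r T, |x s - x r| ≤ 2 * (s - r) := by
    intro r hr s hs
    exact abs_le_of_right_deriv (C := 2) (hxc.mono (Icc_subset_Icc_left hr.1)) (fun s hs => by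
      obtain ⟨a, b, ha, ha', hb, h1, h2, h4, h5⟩ := hd s ⟨hr.1.trans hs.1, hs.2⟩
      exact ⟨a, ha', h1⟩) s hs
  have hxb : ∀ s ∈ Icc 0 T, |x s| ≤ 2 * s := by
    intro s hs
    have := hvl 0 (left_mem_Icc.2 hT.le) s hs
    simpa [hx0] using this
  obtain ⟨s₁, hs₁, hmax⟩ := isCompact_Icc.exists_isMaxOn (nonempty_Icc.2 hT.le) hxc.abs
  set V := |x s₁| with hVdef
  have hVmax : ∀ s ∈ Icc 0 T, |x s| ≤ V := fun s hs => hmax hs
  have hVnn : 0 ≤ V := abs_nonneg _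
  rcases hVnn.eq_or_lt with hV0 | hVpos
  · -- no coupling at all
    have h := le_of_right_deriv (C := 0) hT.le hzc (fun s hs => by
      obtain ⟨a, b, ha, ha', hb, h1, h2, h4, h5⟩ := hd s hs
      refine ⟨_, ?_, h5⟩
      have hvs : x s = 0 := by
        have := hVmax s (Ico_subset_Icc_self hs)
        rw [← hV0] at this
        exact abs_nonpos_iff.1 this
      rw [hvs]
      have : (0 : ℝ) ≤ 0 ^ (2 * m) := by positivity
      nlinarith [sq_nonneg (0 * p s + y s / 2)])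
    linarith
  · -- the main case
    have hV_le_s : V ≤ 2 * s₁ := hxb s₁ hs₁
    have hVT₀ : V ≤ T₀ := by linarith [hs₁.2]
    have hsmall := hthr V hVpos hVT₀
    set κ := √V with hκ
    have hκpos : 0 < κ := Real.sqrt_pos.2 hVpos
    have hκ2 : V = κ ^ 2 := (Real.sq_sqrt hVpos.le).symm
    have hκ1 : κ ≤ 1 / 20 := by
      apply Real.sqrt_le_iff.2
      exact ⟨by norm_num, by norm_num; linarith⟩
    set δ := Real.exp (-(1 / (8 * κ))) with hδ
    have hδpos : 0 < δ := Real.exp_pos _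
    let Ψ : ℝ → ℝ := fun s => z s + GG δ (x s) * y s ^ 2
    have hGc : Continuous (GG δ) :=
      continuous_iff_continuousAt.2 fun u => (hasDerivAt_GG hδpos u).continuousAt
    have hΨc : ContinuousOn Ψ (Icc 0 T) :=
      hzc.add ((hGc.comp_continuousOn hxc).mul (hyc.pow 2))
    have hΨd : ∀ s ∈ Ico 0 T, ∃ d, -12 * δ ^ 2 + x s ^ (2 * m) ≤ d ∧
        HasDerivWithinAt Ψ d (Ici s) s := by
      intro s hs
      have hsI := Ico_subset_Icc_self hs
      obtain ⟨a, b, ha, ha', hb, h1, h2, h4, h5⟩ := hd s hs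
      have hG := (hasDerivAt_GG hδpos (x s)).comp_hasDerivWithinAt s h1
      have hy2 := h4.pow 2
      refine ⟨_, ?_, h5.add (hG.mul hy2)⟩
      have hx1 : |x s| ≤ 1 := by have := hxb s hsI; linarith [hs.2]
      have hp1 : |p s| ≤ 1 := by have := hpb s hsI; linarith [hs.2]
      have hpt := pointwise' (y := y s) hκpos hκ1 hκ2 hx1 hp1 ha
      have hvV : x s * y s ^ 2 ≤ V * y s ^ 2 := by
        have : x s ≤ V := (le_abs_self _).trans (hVmax s hsI)
        gcongr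
      simp only [Function.comp_apply] at *
      have e : GG' δ (x s) * a * y s ^ 2 + GG δ (x s) * (((2 : ℕ) : ℝ) * y s ^ (2 - 1) * p s) =
          GG' δ (x s) * a * y s ^ 2 + GG δ (x s) * (2 * y s * p s) := by
        norm_num
      rw [e]
      linarith
    have hΨ0 : Ψ 0 = 0 := by simp [Ψ, hz0, hy0]
    have hΨT : Ψ T = z T := by simp [Ψ, hxT, GG]
    have hpow : ∀ s, 0 ≤ x s ^ (2 * m) := fun s => by
      rw [pow_mul]; positivity
    -- three intervals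
    have hs₁0 : 0 ≤ s₁ - V / 4 := by linarith
    have hI1 := le_of_right_deriv (C := -12 * δ ^ 2) hs₁0
      (hΨc.mono (Icc_subset_Icc_right (by linarith [hs₁.2]))) (fun s hs => by
        obtain ⟨d, hd1, hd2⟩ := hΨd s ⟨hs.1, by linarith [hs.2, hs₁.2]⟩
        exact ⟨d, by linarith [hpow s], hd2⟩)
    have hI2 := le_of_right_deriv (f := Ψ) (a := s₁ - V / 4) (b := s₁)
      (C := -12 * δ ^ 2 + (V / 2) ^ (2 * m)) (by linarith)
      (hΨc.mono (Icc_subset_Icc hs₁0 hs₁.2)) (fun s hs => by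
        have hsI : s ∈ Ico 0 T := ⟨hs₁0.trans hs.1, hs.2.trans_le hs₁.2⟩
        obtain ⟨d, hd1, hd2⟩ := hΨd s hsI
        refine ⟨d, ?_, hd2⟩
        have hvs : V / 2 ≤ |x s| := by
          have h1 := hvl s (Ico_subset_Icc_self hsI) s₁ ⟨hs.2.le, hs₁.2⟩
          have h2 : |x s₁| ≤ |x s₁ - x s| + |x s| := by
            have := abs_add_le (x s₁ - x s) (x s)
            simpa using this
          have h3 := hs.1
          rw [← hVdef] at h2
          linarith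
        have : (V / 2) ^ (2 * m) ≤ x s ^ (2 * m) := by
          rw [← Even.pow_abs (even_two_mul m) (x s)]
          gcongr
        linarith)
    have hI3 := le_of_right_deriv (f := Ψ) (a := s₁) (b := T) (C := -12 * δ ^ 2) hs₁.2
      (hΨc.mono (Icc_subset_Icc_left hs₁.1)) (fun s hs => by
        obtain ⟨d, hd1, hd2⟩ := hΨd s ⟨hs₁.1.trans hs.1, hs.2⟩
        exact ⟨d, by linarith [hpow s], hd2⟩)
    rw [hΨT] at hI3
    rw [hΨ0] at hI1
    have hsum : -12 * δ ^ 2 * T + (V / 2) ^ (2 * m) * (V / 4) ≤ z T := by nlinarith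
    have hδ2 : 0 ≤ 12 * δ ^ 2 := by positivity
    have hTδ : 12 * δ ^ 2 * T ≤ 12 * δ ^ 2 * (1 / 2) :=
      mul_le_mul_of_nonneg_left (by linarith) hδ2
    have : (V / 2) ^ (2 * m) * (V / 4) = (V / 2) ^ (2 * m + 1) / 2 := by rw [pow_succ]; ring
    rw [this] at hsum
    linarith

end

end Pool.Agent.Y860.FJ
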