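import Mathlib
import Pool.Agent.Y860.FJ.Control
import Pool.Agent.Y860.FJ.Lower

open Set Filter Topology
open scoped ContDiff
open Pool.Agent.Helper562.STLC (E Conn Attainable STLC AgreeToOrder IsPolynomialField glue
  exists_threshold)

namespace Pool.Agent.Y860.FJ

noncomputable section

variable {m k : ℕ} {φ : Fin k → Idx m}

lemma ctl_bound (i : Fin 3) : (ctl i).1 ≤ 1 ∧ |(ctl i).1| ≤ 2 ∧ |(ctl i).2| ≤ 1 := by
  fin_cases i <;> simp [ctl] <;> norm_num

lemma cv_bound (c : Idx m) : cv m c (c0 m) ≤ 1 ∧ |cv m c (c0 m)| ≤ 2 ∧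
    |cv m c (c1 m)| ≤ 1 := by
  rcases c with i | j
  · simpa [cv, c0, c1] using ctl_bound i
  · have h1 : ¬ ((1 : ℕ) = j.val + 4) := by omega
    simp [cv, c0, c1, h1]

lemma comp_deriv {n : ℕ} {q : ℝ → E n} {v : E n} {S : Set ℝ} {s : ℝ}
    (h : HasDerivWithinAt q v S s) (j : Fin n) : HasDerivWithinAt (fun u => q u j) (v j) S s :=
  ((EuclideanSpace.proj j : E n →L[ℝ] ℝ).hasFDerivAt.comp_hasDerivWithinAt s h)

lemma comp_cont {n : ℕ} {q : ℝ → E n} {S : Set ℝ} (h : ContinuousOn q S) (j : Fin n) :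
    ContinuousOn (fun u => q u j) S :=
  (EuclideanSpace.proj j : E n →L[ℝ] ℝ).continuous.comp_continuousOn h

lemma reachable_nonneg {N : ℕ} {T₀ : ℝ} (hT₀ : T₀ ≤ 1 / 400)
    (hthr : ∀ V, 0 < V → V ≤ T₀ → 12 * Real.exp (-(1 / (8 * √V))) ^ 2 ≤ (V / 2) ^ (2 * N + 1))
    {w : E (m + 4)} (hw : w ∈ Attainable (fam m 1 N φ) (T₀ / 2)) (hw0 : w (c0 m) = 0) :
    0 ≤ w (c3 m) := by
  obtain ⟨M, hM⟩ := hw
  obtain ⟨T, hT, hTT, q, hqc, hq0, hqT, hqd⟩ := glue hM
  have := end_nonneg' (m := N) hT₀ hthr hT (by linarith) (x := fun s => q s (c0 m))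
    (p := fun s => q s (c1 m)) (y := fun s => q s (c2 m)) (z := fun s => q s (c3 m))
    (comp_cont hqc _) (comp_cont hqc _) (comp_cont hqc _) (comp_cont hqc _)
    (by simp [hq0]) (by simp [hq0]) (by simp [hq0]) (by simp [hq0])
    (fun s hs => by
      obtain ⟨i, hi⟩ := hqd s hs
      obtain ⟨hb1, hb1', hb2⟩ := cv_bound (φ i)
      refine ⟨cv m (φ i) (c0 m), cv m (φ i) (c1 m), hb1, hb1', hb2,
        ?_, ?_, ?_, ?_⟩
      · have := comp_deriv hi (c0 m)
        simpa [fam, fld, c0] using this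
      · have := comp_deriv hi (c1 m)
        simpa [fam, fld, c1] using this
      · have := comp_deriv hi (c2 m)
        simpa [fam, fld, c2] using this
      · have := comp_deriv hi (c3 m)
        simpa [fam, fld, c3, K] using this)
    (by simp [hqT, hw0])
  simpa [hqT] using this

lemma not_STLC (N : ℕ) : ¬ STLC (fam m 1 N φ) := by
  intro h
  obtain ⟨T₀, hT₀, hT₀', hthr⟩ := exists_threshold N
  have h1 := h (T₀ / 2) (by linarith)
  rw [mem_interior_iff_mem_nhds, Metric.mem_nhds_iff] at h1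
  obtain ⟨r, hr, hball⟩ := h1
  let w : E (m + 4) := EuclideanSpace.single (c3 m) (-(r / 2))
  have hw : w ∈ Metric.ball (0 : E (m + 4)) r := by
    rw [mem_ball_zero_iff, show ‖w‖ = ‖-(r / 2)‖ from PiLp.norm_single 2 _ _ _, norm_neg,
      Real.norm_eq_abs, abs_of_pos (by linarith)]
    linarith
  have h03 : c0 m ≠ c3 m := by simp [c0, c3]
  have h2 := reachable_nonneg hT₀' hthr (hball hw) (by simp [w, h03])
  simp [w] at h2
  linarith

/-- projection on the first coordinate. -/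
def pr0 (m : ℕ) : E (m + 4) →L[ℝ] ℝ := EuclideanSpace.proj (c0 m)

/-- the line in the direction of `z`. -/
def lz (m : ℕ) : ℝ →L[ℝ] E (m + 4) :=
  ContinuousLinearMap.toSpanSingleton ℝ (EuclideanSpace.single (c3 m) (1 : ℝ))

lemma fld_eq (N : ℕ) (c : Idx m) :
    fld m 1 N c = fld m 0 0 c + lz m ∘ ((fun u : ℝ => u ^ (2 * N)) ∘ pr0 m) := by
  funext q
  ext j
  by_cases h3 : j.val = 3
  · have hj : j = c3 m := Fin.ext h3
    subst hj
    simp [fld, lz, pr0, c3]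
  · have hj : j ≠ c3 m := fun h => h3 (by rw [h]; rfl)
    simp [fld, lz, pr0, h3, hj]

lemma contDiff_fld (e : ℝ) (N : ℕ) (c : Idx m) {n : WithTop ℕ∞} :
    ContDiff ℝ n (fld m e N c) := by
  rw [contDiff_euclidean]
  intro j
  have hc : ∀ l : Fin (m + 4), ContDiff ℝ n (fun q : E (m + 4) => q l) := fun l =>
    (EuclideanSpace.proj l : E (m + 4) →L[ℝ] ℝ).contDiff
  by_cases h2 : j.val = 2
  · simpa [fld, h2] using hc (c1 m)
  by_cases h3 : j.val = 3
  · have h : ContDiff ℝ n (fun q : E (m + 4) => (q (c0 m) * q (c1 m) + q (c2 m) / 2) ^ 2 -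
        q (c0 m) * q (c2 m) ^ 2 + e * q (c0 m) ^ (2 * N)) :=
      (((((hc _).mul (hc _)).add ((hc _).div_const 2)).pow 2).sub
        ((hc _).mul ((hc _).pow 2))).add (contDiff_const.mul ((hc _).pow _))
    simpa [fld, h3, K] using h
  · simpa [fld, h2, h3] using contDiff_const

lemma iteratedFDeriv_pow_zero {j k : ℕ} (h : j < k) :
    iteratedFDeriv ℝ j (fun u : ℝ => u ^ k) 0 = 0 := by
  ext
  rw [iteratedFDeriv_apply_eq_iteratedDeriv_mul_prod, iteratedDeriv_fun_pow_zero]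
  simp [h.ne]

lemma agree (N : ℕ) : AgreeToOrder N (fam m 0 0 φ) (fam m 1 (N + 1) φ) := by
  intro i j hj
  simp only [fam]
  rw [fld_eq]
  have hp : ContDiff ℝ j (fun u : ℝ => u ^ (2 * (N + 1))) := by fun_prop
  have h1 : ContDiff ℝ j ((fun u : ℝ => u ^ (2 * (N + 1))) ∘ pr0 m) := hp.comp (pr0 m).contDiff
  have h2 : ContDiff ℝ j (lz m ∘ ((fun u : ℝ => u ^ (2 * (N + 1))) ∘ pr0 m)) :=
    (lz m).contDiff.comp h1
  rw [iteratedFDeriv_add_apply (contDiff_fld 0 0 (φ i)).contDiffAt h2.contDiffAt]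
  have h3 : iteratedFDeriv ℝ j (lz m ∘ ((fun u : ℝ => u ^ (2 * (N + 1))) ∘ pr0 m)) 0 = 0 := by
    rw [(lz m).iteratedFDeriv_comp_left h1.contDiffAt le_rfl,
      (pr0 m).iteratedFDeriv_comp_right hp _ le_rfl]
    rw [map_zero, iteratedFDeriv_pow_zero (by omega)]
    ext v
    simp
  rw [h3, add_zero]

lemma isPolynomial_fld (e : ℝ) (N : ℕ) (c : Idx m) : IsPolynomialField (fld m e N c) := by
  refine ⟨fun l => if l.val = 2 then MvPolynomial.X (c1 m)
    else if l.val = 3 then (MvPolynomial.X (c0 m) * MvPolynomial.X (c1 m) +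
      MvPolynomial.C (1 / 2) * MvPolynomial.X (c2 m)) ^ 2 -
      MvPolynomial.X (c0 m) * MvPolynomial.X (c2 m) ^ 2 +
      MvPolynomial.C e * MvPolynomial.X (c0 m) ^ (2 * N)
    else MvPolynomial.C (cv m c l), ?_⟩
  intro q j
  by_cases h2 : j.val = 2
  · simp [fld, h2]
  by_cases h3 : j.val = 3
  · simp [fld, h3, K]
    ring
  · simp [fld, h2, h3]

lemma analytic_fld (e : ℝ) (N : ℕ) (c : Idx m) : AnalyticOnNhd ℝ (fld m e N c) univ :=
  contDiff_omega_iff_analyticOnNhd.1 (contDiff_fld e N c)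

lemma exists_index (m k : ℕ) (hk : m + 3 ≤ k) :
    ∃ φ : Fin k → Idx m, Function.Surjective φ := by
  have hcard : Fintype.card (Idx m) ≤ Fintype.card (Fin k) := by
    simp [Idx]
    omega
  obtain ⟨f⟩ := Function.Embedding.nonempty_of_card_le hcard
  haveI : Nonempty (Idx m) := ⟨.inl 0⟩
  exact ⟨Function.invFun f, Function.invFun_surjective f.injective⟩

/-- In every dimension at least four the small-time local controllability is not determined by
any finite number of derivatives. -/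
theorem main (n k : ℕ) (hn : 4 ≤ n) (hk : n ≤ k + 1) : ∃ f : Fin k → E n → E n,
    (∀ i, IsPolynomialField (f i) ∧ AnalyticOnNhd ℝ (f i) univ) ∧ STLC f ∧
    ∀ N : ℕ, ∃ g : Fin k → E n → E n,
      (∀ i, IsPolynomialField (g i) ∧ AnalyticOnNhd ℝ (g i) univ) ∧
      AgreeToOrder N f g ∧ ¬ STLC g := by
  obtain ⟨m, rfl⟩ : ∃ m, n = m + 4 := ⟨n - 4, by omega⟩
  obtain ⟨φ, hφ⟩ := exists_index m k (by omega)
  exact ⟨fam m 0 0 φ, fun i => ⟨isPolynomial_fld 0 0 (φ i), analytic_fld 0 0 (φ i)⟩,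
    stlc_fam hφ, fun N => ⟨fam m 1 (N + 1) φ,
      fun i => ⟨isPolynomial_fld 1 (N + 1) (φ i), analytic_fld 1 (N + 1) (φ i)⟩,
      agree N, not_STLC (N + 1)⟩⟩

end

end Pool.Agent.Y860.FJ
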